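import Pool.Agent.H856.PR.Stm

/-! # PR-CNJ: the complex conjugation of the field of the `p`-th roots of unity -/

set_option autoImplicit false

open Polynomial NumberField

namespace Pool.Agent.H856.PR

theorem cnj : S_CNJ := by
  intro p hp
  have hp0 : p ≠ 0 := hp.out.ne_zero
  have hz1 : NeZero p := ⟨hp0⟩
  have hz2 : NeZero ((p : ℕ) : ℚ) := ⟨by exact_mod_cast hp0⟩
  have hcyc : IsCyclotomicExtension {p} ℚ (CyclotomicField p ℚ) :=
    CyclotomicField.isCyclotomicExtension p ℚ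
  have hprim : IsPrimitiveRoot (IsCyclotomicExtension.zeta p ℚ (CyclotomicField p ℚ)) p :=
    IsCyclotomicExtension.zeta_spec p ℚ (CyclotomicField p ℚ)
  obtain ⟨ζ, hζ⟩ : ∃ ζ : CyclotomicField p ℚ,
    ζ = IsCyclotomicExtension.zeta p ℚ (CyclotomicField p ℚ) := ⟨_, rfl⟩
  rw [← hζ] at hprim
  have hinv : IsPrimitiveRoot ζ⁻¹ p := hprim.inv
  have hgen : (hprim.powerBasis ℚ).gen = ζ := hprim.powerBasis_gen ℚ
  have hroot : aeval ζ⁻¹ (minpoly ℚ (hprim.powerBasis ℚ).gen) = 0 := by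
    rw [hgen, ← cyclotomic_eq_minpoly_rat hprim hp.out.pos, aeval_def, eval₂_eq_eval_map,
      map_cyclotomic]
    exact hinv.isRoot_cyclotomic hp.out.pos
  refine ⟨((hprim.powerBasis ℚ).lift ζ⁻¹ hroot).toRingHom, fun φ x => ?_⟩
  have hnorm : ‖φ ζ‖ = 1 := (hprim.map_of_injective φ.injective).norm'_eq_one hp0
  have key : (φ.comp ((hprim.powerBasis ℚ).lift ζ⁻¹ hroot).toRingHom).toRatAlgHom =
      ((starRingEnd ℂ).comp φ).toRatAlgHom := by
    apply (hprim.powerBasis ℚ).algHom_ext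
    show φ (((hprim.powerBasis ℚ).lift ζ⁻¹ hroot) (hprim.powerBasis ℚ).gen) =
      (starRingEnd ℂ) (φ (hprim.powerBasis ℚ).gen)
    rw [PowerBasis.lift_gen, hgen, map_inv₀, Complex.inv_eq_conj hnorm]
  exact DFunLike.congr_fun key x

end Pool.Agent.H856.PR
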