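import Pool.Agent.H856.PR.Stm

/-! # `S_SIG` (helper167 for helper856) -/

set_option autoImplicit false

open Polynomial NumberField

namespace Pool.Agent.H856.PR

theorem sig : S_SIG := by
  intro E _ _ _ f f'
  letI : Algebra E (AlgebraicClosure ℚ) := f.toAlgebra
  haveI : IsScalarTower ℚ E (AlgebraicClosure ℚ) :=
    IsScalarTower.of_algebraMap_eq' (Subsingleton.elim _ _)
  let φ : E →ₐ[ℚ] AlgebraicClosure ℚ := f'.toRatAlgHom
  refine ⟨(φ.restrictNormal' E).toRingEquiv, fun x => ?_⟩
  exact (φ.restrictNormal_commutes E x).symm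

end Pool.Agent.H856.PR
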