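import Pool.Agent.H856.PR.Stm

/-! # Stabilizers of roots and squares of discriminants -/

set_option autoImplicit false
set_option linter.style.haveILetI false

open Polynomial NumberField

namespace Pool.Agent.H856.PR

namespace SqProof

theorem hom_ext {E R : Type} [Field E] [CharZero E] [Field R] [CharZero R] {w : E}
    (hw : IntermediateField.adjoin ℚ {w} = ⊤) (f g : E →+* R) (h : f w = g w) : f = g := by
  ext x
  have hx : x ∈ IntermediateField.adjoin ℚ {w} := by rw [hw]; trivial
  induction hx using IntermediateField.adjoin_induction with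
  | mem y hy => rw [Set.mem_singleton_iff.1 hy]; exact h
  | algebraMap r => simp
  | add x y _ _ h1 h2 => rw [map_add, map_add, h1, h2]
  | inv x _ h1 => rw [map_inv₀, map_inv₀, h1]
  | mul x y _ _ h1 h2 => rw [map_mul, map_mul, h1, h2]

/-- an element which is fixed by all automorphisms over a number field is in the number field -/
theorem mem_range {E : Type} [Field E] [NumberField E] (f : E →+* AlgebraicClosure ℚ)
    (y : AlgebraicClosure ℚ)
    (h : ∀ g : AlgebraicClosure ℚ ≃+* AlgebraicClosure ℚ, (∀ x, g (f x) = f x) → g y = y) :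
    ∃ z, f z = y := by
  letI : Algebra E (AlgebraicClosure ℚ) := f.toAlgebra
  haveI : IsScalarTower ℚ E (AlgebraicClosure ℚ) :=
    IsScalarTower.of_algebraMap_eq' (Subsingleton.elim _ _)
  haveI : Algebra.IsAlgebraic ℚ (AlgebraicClosure ℚ) := AlgebraicClosure.isAlgebraic ℚ
  haveI : Algebra.IsAlgebraic E (AlgebraicClosure ℚ) := Algebra.IsAlgebraic.tower_top (K := ℚ) E
  haveI : IsAlgClosure E (AlgebraicClosure ℚ) := ⟨inferInstance, inferInstance⟩
  haveI : Normal E (AlgebraicClosure ℚ) := IsAlgClosure.normal E (AlgebraicClosure ℚ)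
  haveI : IsGalois E (AlgebraicClosure ℚ) := ⟨⟩
  have h1 : y ∈ (⊥ : IntermediateField E (AlgebraicClosure ℚ)) := by
    rw [InfiniteGalois.mem_bot_iff_fixed]
    intro σ
    exact h (σ : AlgebraicClosure ℚ ≃+* AlgebraicClosure ℚ) fun x => σ.commutes x
  rw [IntermediateField.mem_bot] at h1
  exact h1

/-- the action on the difference of the roots -/
theorem diff {g : AlgebraicClosure ℚ ≃+* AlgebraicClosure ℚ} {α α' : AlgebraicClosure ℚ}
    (hne : α ≠ α') (h : (g α = α ∧ g α' = α') ∨ (g α = α' ∧ g α' = α)) :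
    (g α = α ∧ g (α - α') = α - α') ∨ (g α ≠ α ∧ g (α - α') = -(α - α')) := by
  rcases h with ⟨h1, h2⟩ | ⟨h1, h2⟩
  · exact Or.inl ⟨h1, by rw [map_sub, h1, h2]⟩
  · refine Or.inr ⟨?_, by rw [map_sub, h1, h2, neg_sub]⟩
    rw [h1]
    exact fun h => hne h.symm

end SqProof

open SqProof in
theorem sq : S_SQ := by
  intro E _ _ w0 hw f d d' α α' β β' hα hβ h1 h2 hgα hgβ
  have hy2 : ((α - α') * (β - β')) * ((α - α') * (β - β')) = f (d * d') := by
    rw [map_mul, ← h1, ← h2]
    ring
  have hy0 : (α - α') * (β - β') ≠ 0 := mul_ne_zero (sub_ne_zero.2 hα) (sub_ne_zero.2 hβ)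
  have hneg : (α - α') * (β - β') ≠ -((α - α') * (β - β')) := by
    intro h
    have h3 : (2 : AlgebraicClosure ℚ) * ((α - α') * (β - β')) = 0 := by
      linear_combination h
    rcases mul_eq_zero.1 h3 with h4 | h4
    · exact two_ne_zero h4
    · exact hy0 h4
  constructor
  · intro h
    obtain ⟨z, hz⟩ := mem_range f ((α - α') * (β - β')) (by
      intro g hg
      have h3 := h g (hg w0)
      rw [map_mul]
      rcases diff hα (hgα g (hg w0)) with ⟨a1, a2⟩ | ⟨a1, a2⟩ <;>
      rcases diff hβ (hgβ g (hg w0)) with ⟨b1, b2⟩ | ⟨b1, b2⟩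
      · rw [a2, b2]
      · exact absurd (h3.1 a1) b1
      · exact absurd (h3.2 b1) a1
      · rw [a2, b2, neg_mul_neg])
    refine ⟨z, f.injective ?_⟩
    rw [map_mul f z z, hz, hy2]
  · rintro ⟨z, hz⟩ g hg
    have hgf : ∀ x, g (f x) = f x := by
      have h3 : (g : AlgebraicClosure ℚ →+* AlgebraicClosure ℚ).comp f = f :=
        hom_ext hw _ _ hg
      exact fun x => RingHom.congr_fun h3 x
    have hfix : g ((α - α') * (β - β')) = (α - α') * (β - β') := by
      rw [hz, map_mul f z z] at hy2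
      rcases mul_self_eq_mul_self_iff.1 hy2 with h3 | h3
      · rw [h3, hgf]
      · rw [h3, map_neg, hgf]
    rw [map_mul] at hfix
    rcases diff hα (hgα g hg) with ⟨a1, a2⟩ | ⟨a1, a2⟩ <;>
    rcases diff hβ (hgβ g hg) with ⟨b1, b2⟩ | ⟨b1, b2⟩
    · exact ⟨fun _ => b1, fun _ => a1⟩
    · rw [a2, b2, mul_neg] at hfix
      exact absurd hfix.symm hneg
    · rw [a2, b2, neg_mul] at hfix
      exact absurd hfix.symm hneg
    · exact ⟨fun h => absurd h a1, fun h => absurd h b1⟩

end Pool.Agent.H856.PR
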