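import Pool.Agent.H856.PR.Free
import Pool.Agent.H856.PR.Sig
import Pool.Agent.H856.PR.Sq

/-! # Products: the absence of relations, in the form used by the library -/

set_option autoImplicit false

open Polynomial NumberField

namespace Pool.Agent.H856.PR

open Pool.Agent.H856.WD Pool.Agent.H856.WE Pool.Agent.Y1.CT Pool.Agent.W484.HS

theorem ne_zero_of_family {p a : ℕ} [hp : Fact p.Prime] {E : Type} [Field E] [NumberField E]
    {I : Type} {P : I → E[X]} {Γ : (I × (E →+* ℂ)) × Fin 2 → ℂ} (h : IsFamily p a P Γ) (x) :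
    Γ x ≠ 0 := by
  intro h0
  have h1 := h.weil x
  rw [h0, norm_zero, zero_pow two_ne_zero] at h1
  exact (pow_pos (by exact_mod_cast hp.out.pos : (0 : ℝ) < p) a).ne h1

/-- the conjugate of a root is a root -/
theorem exists_conj {p a : ℕ} [hp : Fact p.Prime] {E : Type} [Field E] [NumberField E]
    {I : Type} {P : I → E[X]} {Γ : (I × (E →+* ℂ)) × Fin 2 → ℂ} (h : IsFamily p a P Γ) (x) :
    ∃ y, Γ y = (p : ℂ) ^ a / Γ x := by
  obtain ⟨⟨i, φ⟩, k⟩ := x
  have h0 := ne_zero_of_family h ((i, φ), k)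
  have h1 : (starRingEnd ℂ) (Γ ((i, φ), k)) = (p : ℂ) ^ a / Γ ((i, φ), k) := by
    rw [eq_div_iff h0, mul_comm, Complex.mul_conj, Complex.normSq_eq_norm_sq, h.weil]
    push_cast
    rfl
  have h2 : ((P i).map φ).eval (Γ ((i, φ), k)) = 0 := by
    rw [h.roots, eval_prod]
    exact Finset.prod_eq_zero (Finset.mem_univ k) (by simp)
  have h3 : ((P i).map ((starRingEnd ℂ).comp φ)).eval ((starRingEnd ℂ) (Γ ((i, φ), k))) = 0 := by
    rw [← Polynomial.map_map, eval_map, eval₂_hom, h2, map_zero]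
  rw [h.roots, eval_prod] at h3
  obtain ⟨k', _, hk⟩ := Finset.prod_eq_zero_iff.1 h3
  rw [eval_sub, eval_X, eval_C, sub_eq_zero] at hk
  exact ⟨((i, (starRingEnd ℂ).comp φ), k'), by rw [← h1, hk]⟩

/-- **There are no relations** between the eigenvalues and numbers with a power in `M`. -/
theorem noRel {p a : ℕ} [hp : Fact p.Prime] {E : Type} [Field E] [NumberField E]
    {I : Type} [Fintype I] {P : I → E[X]} {Γ : (I × (E →+* ℂ)) × Fin 2 → ℂ} (h : IsFamily p a P Γ)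
    (hs : SameSlopes p P) {M : Subfield ℂ} (hM : Avoids Γ M) {J : Type} {f : J → ℤ[X]}
    (hf : ∀ j, (f j).Monic) (hroot : ∀ j (z : ℂ), aeval z (f j) = 0 → ∃ x, Γ x = z) :
    NoRel f (p ^ a) (PowerIn M) := by
  classical
  have hgal := h.galois
  obtain ⟨c, hc⟩ := h.conj
  have hp0 : (p : ℂ) ≠ 0 := by exact_mod_cast hp.out.ne_zero
  have hq : ((p ^ a : ℕ) : ℂ) = (p : ℂ) ^ a := by push_cast; rfl
  have hq0 : ((p ^ a : ℕ) : ℂ) ≠ 0 := by rw [hq]; exact pow_ne_zero _ hp0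
  refine ⟨hf, ⟨one_ne_zero, 1, one_pos, by rw [one_pow]; exact M.one_mem⟩, ?_⟩
  intro s hs0 ρ hρ n c' s' hs' hn ys hlen hrel hpw
  obtain ⟨hρ0, N, hN, hρM⟩ := hρ
  choose x hx using fun y : {z : ℂ // ∃ i, aeval z (f i) = 0} => hroot y.2.choose y.1 y.2.choose_spec
  -- the product of the letters
  have hne : (ys.map fun z : {z : ℂ // ∃ i, aeval z (f i) = 0} => (z : ℂ)).prod ≠ 0 := by
    refine List.prod_ne_zero fun h1 => ?_
    obtain ⟨z, -, h2⟩ := List.mem_map.1 h1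
    exact ne_zero_of_family h (x z) (by rw [hx, h2])
  set Pr0 : ℂ := (ys.map fun z : {z : ℂ // ∃ i, aeval z (f i) = 0} => (z : ℂ)).prod with hPr
  have hps : (ys.map fun z : {z : ℂ // ∃ i, aeval z (f i) = 0} => (z : ℂ) ^ s).prod = Pr0 ^ s := by
    rw [hPr]
    clear hrel hpw hlen hne hPr
    induction ys with
    | nil => simp
    | cons y ys ih => rw [List.map_cons, List.prod_cons, ih, List.map_cons, List.prod_cons, mul_pow]
  have hK : Pr0 ^ (s * s' * N) ∈ M := by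
    have h1 : (Pr0 ^ s * ρ) ^ s' = ((((p ^ a : ℕ) : ℂ) ^ s) ^ c') ^ s' := by
      rw [← hps]
      exact hrel
    have h2 : Pr0 ^ (s * s' * N) = (((((p ^ a : ℕ) : ℂ) ^ s) ^ c') ^ s') ^ N / (ρ ^ N) ^ s' := by
      rw [← h1, eq_div_iff (pow_ne_zero _ (pow_ne_zero _ hρ0))]
      rw [mul_pow, mul_pow, ← pow_mul, ← pow_mul, ← pow_mul, ← pow_mul, mul_comm N s', mul_assoc s]
    rw [h2]
    have h3 : ((p ^ a : ℕ) : ℂ) ∈ M := natCast_mem M _
    exact M.div_mem (M.pow_mem (M.pow_mem (M.zpow_mem (M.pow_mem h3 _) _) _) _)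
      (M.pow_mem hρM _)
  let w : Multiset ((I × (E →+* ℂ)) × Fin 2) := (ys.map x : List _)
  have hwp : (w.map Γ).prod = Pr0 := by
    simp only [w, Multiset.map_coe, List.map_map, Multiset.prod_coe]
    rw [hPr]
    congr 1
    refine List.map_congr_left fun y _ => ?_
    exact hx y
  -- the first letter
  obtain ⟨y, ys', rfl⟩ : ∃ y l, ys = y :: l := by
    cases ys with
    | nil => simp at hlen; omega
    | cons y l => exact ⟨y, l, rfl⟩
  obtain ⟨x1, hx1, m, hm, hdual⟩ := free sig sq p a h.pos E c hc h.onePlace I P h.monic h.degree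
    h.integral Γ h.roots h.weil h.notSS hs M hM.field hM.root w (s * s' * N)
    (Nat.mul_pos (Nat.mul_pos hs0 hs') hN) (by rw [hwp]; exact hK) (x y) (by simp [w])
  have hx1' : x1 ∈ (ys'.map x : Multiset ((I × (E →+* ℂ)) × Fin 2)) := by
    have h1 : ({x y, x1} : Multiset ((I × (E →+* ℂ)) × Fin 2)) ≤
        x y ::ₘ (ys'.map x : Multiset ((I × (E →+* ℂ)) × Fin 2)) := hx1
    rw [Multiset.insert_eq_cons, Multiset.cons_le_cons_iff, Multiset.singleton_le] at h1
    exact h1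
  rw [Multiset.mem_coe] at hx1'
  obtain ⟨y1, hy1, rfl⟩ := List.mem_map.1 hx1'
  obtain ⟨z, hz⟩ := exists_conj h (x y)
  have h2 : Γ (x y1) = Γ z := by
    apply h.reduced
    refine ⟨m, hm, ?_⟩
    rw [hz, div_pow, eq_div_iff (pow_ne_zero _ (ne_zero_of_family h _)), ← mul_pow, mul_comm]
    exact hdual
  have h3 := List.rel_of_pairwise_cons hpw hy1
  apply h3
  change (y : ℂ) ^ s * (y1 : ℂ) ^ s = ((p ^ a : ℕ) : ℂ) ^ s
  rw [← mul_pow, ← hx y, ← hx y1, h2, hz, mul_div_cancel₀ _ (ne_zero_of_family h _), hq]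

theorem not_powerIn_zero (M : Subfield ℂ) : ¬ PowerIn M 0 := fun h => h.1 rfl

end Pool.Agent.H856.PR
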