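import Pool.Agent.H856.PR.Crit
import Pool.Agent.H856.PR.NoRel

/-! # Products: the converse -/

set_option autoImplicit false

open Polynomial NumberField

namespace Pool.Agent.H856.PR

open Pool.Agent.H856.WD Pool.Agent.H856.WE

open AvProof Classical in
theorem crit_data (hSQ : S_SQ)
    (p a : ℕ) [hp : Fact p.Prime] (ha : 0 < a) (E : Type) [Field E] [NumberField E]
    [IsGalois ℚ E] (c : E →+* E)
    (hc : ∀ (φ : E →+* ℂ) (x : E), φ (c x) = (starRingEnd ℂ) (φ x))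
    (hu : ∀ I J : Ideal (𝓞 E), I.IsPrime → J.IsPrime → (p : 𝓞 E) ∈ I → (p : 𝓞 E) ∈ J → I = J)
    (I : Type) [Fintype I] (P : I → E[X]) (hPm : ∀ i, (P i).Monic)
    (hPd : ∀ i, (P i).natDegree = 2) (hPi : ∀ i n, IsIntegral ℤ ((P i).coeff n))
    (Γ : (I × (E →+* ℂ)) × Fin 2 → ℂ)
    (hΓ : ∀ i (φ : E →+* ℂ), (P i).map φ = ∏ k, (X - C (Γ ((i, φ), k))))
    (hab : ∀ x, ‖Γ x‖ ^ 2 = (p : ℝ) ^ a)
    (i1 i2 : I) (σ : E ≃+* E) (hi1 : NotSS p a (P i1)) (hi2 : NotSS p a (P i2))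
    (hsqr : IsSquare (disc (P i1) * σ (disc (P i2)))) (hne12 : ht p (P i1) ≠ ht p (P i2)) :
    ∃ (x y : (I × (E →+* ℂ)) × Fin 2) (u v : ℕ), 0 < u ∧
      (∃ m : ℕ, 0 < m ∧ (Γ x ^ u * Γ y ^ v) ^ (2 * m) = ((p : ℂ) ^ a) ^ ((u + v) * m)) ∧
      ¬ Dual ((p : ℂ) ^ a) Γ x x ∧ ¬ Dual ((p : ℂ) ^ a) Γ x y ∧ ¬ Eqv Γ x y := by
  classical
  -- the determinants
  have hdet : DetRel ((p : ℂ) ^ a) Γ := by
    rintro ⟨i, φ⟩
    obtain ⟨h1, -⟩ := av act_main pla2 glu2 spl p a 2 E c (P i) (fun x => Γ ((i, x.1), x.2)) ha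
      one_le_two (by norm_num) hc hu (hPm i) (hPd i) (hPi i) (fun φ => hΓ i φ) (fun x => hab _)
    obtain ⟨m, hm, h2⟩ := h1 φ
    refine ⟨m, hm, ?_⟩
    rw [Multiset.map_map, Multiset.card_map] at h2 ⊢
    exact h2
  have _ := hdet
  obtain ⟨j⟩ : Nonempty (AlgebraicClosure ℚ →+* ℂ) := by
    have : Algebra.IsAlgebraic ℚ (AlgebraicClosure ℚ) := AlgebraicClosure.isAlgebraic ℚ
    exact ⟨(IsAlgClosed.lift : AlgebraicClosure ℚ →ₐ[ℚ] ℂ).toRingHom⟩
  obtain ⟨w0, hw0⟩ := Field.exists_primitive_element ℚ E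
  have hwi : IsIntegral ℚ w0 := Algebra.IsIntegral.isIntegral w0
  choose L hL using fun t : E →+* ℂ => lift j t
  have hmin : ∀ f : E →+* AlgebraicClosure ℚ, minpoly ℚ (f w0) = minpoly ℚ w0 := by
    intro f
    exact minpoly.algHom_eq f.toRatAlgHom f.injective w0
  have hPne : ∀ i, P i ≠ 0 := fun i => (hPm i).ne_zero
  have hγ : ∀ x : (I × (E →+* ℂ)) × Fin 2, ∃ r : AlgebraicClosure ℚ,
      ((P x.1.1).map (L x.1.2)).eval r = 0 ∧ j r = Γ x := by
    intro x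
    apply exists_root j _ (IsAlgClosed.splits _) ((Polynomial.map_ne_zero (hPne _)))
    have e1 : j.comp (L x.1.2) = x.1.2 := by
      ext y; exact hL x.1.2 y
    rw [Polynomial.map_map, e1, hΓ x.1.1 x.1.2, eval_prod]
    apply Finset.prod_eq_zero (Finset.mem_univ x.2)
    simp
  choose γ hγ0 hγj using hγ
  have hfac : ∀ i φ, (P i).map (L φ) = (X - C (γ ((i, φ), 0))) * (X - C (γ ((i, φ), 1))) := by
    intro i φ
    apply Polynomial.map_injective j j.injective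
    have e1 : j.comp (L φ) = φ := by
      ext y; exact hL φ y
    rw [Polynomial.map_map, e1, hΓ i φ, Fin.prod_univ_two, Polynomial.map_mul, Polynomial.map_sub,
      Polynomial.map_sub, map_X, map_C, map_C, hγj, hγj]
  let γ' : (I × (E →+* ℂ)) × Fin 2 → AlgebraicClosure ℚ := fun x => γ (x.1, Fin.rev x.2)
  have hsum : ∀ x, γ x + γ' x = - (L x.1.2) ((P x.1.1).coeff 1) := by
    rintro ⟨⟨i, φ⟩, k⟩
    have h1 := congrArg (fun Q => Polynomial.coeff Q 1) (hfac i φ)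
    simp only [coeff_map] at h1
    have h2 : ((X - C (γ ((i, φ), 0))) * (X - C (γ ((i, φ), 1))) : (AlgebraicClosure ℚ)[X]) =
        X ^ 2 - C (γ ((i, φ), 0) + γ ((i, φ), 1)) * X + C (γ ((i, φ), 0) * γ ((i, φ), 1)) := by
      rw [C_add, C_mul]
      ring
    rw [h2] at h1
    simp [coeff_X, coeff_C] at h1
    show γ ((i, φ), k) + γ ((i, φ), Fin.rev k) = - (L φ) ((P i).coeff 1)
    rw [h1]
    fin_cases k
    · show γ ((i, φ), 0) + γ ((i, φ), 1) = _
      ring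
    · show γ ((i, φ), 1) + γ ((i, φ), 0) = _
      ring
  have hprod : ∀ x, γ x * γ' x = (L x.1.2) ((P x.1.1).coeff 0) := by
    rintro ⟨⟨i, φ⟩, k⟩
    have h1 := congrArg (fun Q => Polynomial.coeff Q 0) (hfac i φ)
    simp only [coeff_map] at h1
    have h2 : ((X - C (γ ((i, φ), 0))) * (X - C (γ ((i, φ), 1))) : (AlgebraicClosure ℚ)[X]) =
        X ^ 2 - C (γ ((i, φ), 0) + γ ((i, φ), 1)) * X + C (γ ((i, φ), 0) * γ ((i, φ), 1)) := by
      rw [C_add, C_mul]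
      ring
    rw [h2] at h1
    simp [coeff_C] at h1
    show γ ((i, φ), k) * γ ((i, φ), Fin.rev k) = (L φ) ((P i).coeff 0)
    rw [h1]
    fin_cases k
    · rfl
    · show γ ((i, φ), 1) * γ ((i, φ), 0) = _
      ring
  have hint : ∀ x, IsIntegral ℤ (γ x) := by
    intro x
    refine root_integral ((P x.1.1).map (L x.1.2)) ((hPm _).map _) ?_ (hγ0 x)
    intro n
    rw [coeff_map]
    exact (hPi _ n).map (L x.1.2).toIntAlgHom
  have habs : ∀ x (φ : AlgebraicClosure ℚ →+* ℂ), ‖φ (γ x)‖ ^ 2 = (p : ℝ) ^ a := by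
    rintro ⟨⟨i, t⟩, k⟩ φ
    have h1 : ((P i).map (φ.comp (L t))).eval (φ (γ ((i, t), k))) = 0 := by
      rw [← Polynomial.map_map, eval_map, eval₂_hom, hγ0 ((i, t), k), map_zero]
    rw [hΓ, eval_prod] at h1
    obtain ⟨k', _, hk⟩ := Finset.prod_eq_zero_iff.1 h1
    rw [eval_sub, eval_X, eval_C, sub_eq_zero] at hk
    rw [hk]
    exact hab _
  have hB : ∀ x, ∃ m : ℕ, 0 < m ∧ (γ x * γ' x) ^ m = ((p : AlgebraicClosure ℚ) ^ a) ^ m := by
    intro x
    obtain ⟨m', hm', h1⟩ := hdet x.1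
    refine ⟨2 * m', by omega, ?_⟩
    apply j.injective
    rw [Multiset.map_map, Multiset.card_map] at h1
    have h2 : (Multiset.map (Γ ∘ fun k => (x.1, k)) (Finset.univ : Finset (Fin 2)).val).prod =
        Γ (x.1, 0) * Γ (x.1, 1) := by
      have := Fin.prod_univ_two (fun k => Γ (x.1, k))
      exact this
    rw [h2] at h1
    have h3 : j (γ x * γ' x) = Γ (x.1, 0) * Γ (x.1, 1) := by
      rw [map_mul, hγj]
      show Γ x * j (γ (x.1, Fin.rev x.2)) = _
      rw [hγj]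
      obtain ⟨t, k⟩ := x
      fin_cases k
      · rfl
      · show Γ (t, 1) * Γ (t, 0) = _
        ring
    rw [map_pow, h3, h1, map_pow, map_pow, map_natCast]
    have h4 : (Finset.univ : Finset (Fin 2)).val.card = 2 := rfl
    rw [h4, mul_comm m' 2]
  have hirr : ∀ t : E →+* ℂ, Irreducible ((minpoly ℚ (L t w0)).map (algebraMap ℚ ℚ_[p])) := by
    intro t
    rw [hmin]
    exact spl p E w0 hw0 hu
  have hfixL : ∀ (t0 : E →+* ℂ) (g : AlgebraicClosure ℚ ≃+* AlgebraicClosure ℚ),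
      g (L t0 w0) = L t0 w0 → ∀ (t : E →+* ℂ) (y : E), g (L t y) = L t y := by
    intro t0 g hg t y
    have h1 : (g : AlgebraicClosure ℚ →+* AlgebraicClosure ℚ).comp (L t0) = L t0 :=
      hom_ext hw0 _ _ hg
    have h2 : (g : AlgebraicClosure ℚ →+* AlgebraicClosure ℚ).comp (L t) = L t := by
      refine hom_ext hw0 _ _ ?_
      have hsp : ((minpoly ℚ w0).map (algebraMap ℚ E)).Splits := Normal.splits inferInstance w0
      obtain ⟨r, _, hr⟩ := exists_root (L t0) _ hsp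
        ((Polynomial.map_ne_zero (minpoly.ne_zero hwi))) (L t w0) (by
          rw [Polynomial.map_map]
          have e1 : (L t0).comp (algebraMap ℚ E) = algebraMap ℚ (AlgebraicClosure ℚ) :=
            Subsingleton.elim _ _
          rw [e1, eval_map, ← aeval_def, ← hmin (L t), minpoly.aeval])
      change g (L t w0) = L t w0
      rw [← hr]
      exact RingHom.congr_fun h1 r
    exact RingHom.congr_fun h2 y
  -- absolute values
  have hp1 : (1 : ℝ) < p := by exact_mod_cast hp.out.one_lt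
  have hp0R : (0 : ℝ) < p := by linarith
  have hpn : ‖iota p (p : AlgebraicClosure ℚ)‖ = (p : ℝ)⁻¹ := by
    have h1 := norm_rat p (p : ℚ) (by exact_mod_cast hp.out.ne_zero)
    rw [map_natCast, padicValRat.self hp.out.one_lt, zpow_neg, zpow_one] at h1
    exact h1
  have hd0 : Module.finrank ℚ E ≠ 0 := Module.finrank_pos.ne'
  set c0 : ℝ := ‖iota p (p : AlgebraicClosure ℚ)‖ ^ a with hc0def
  have hc0 : 0 < c0 := by
    rw [hc0def, hpn]
    positivity
  have hcpow : c0 ^ Module.finrank ℚ E = (p : ℝ) ^ (-(a * Module.finrank ℚ E : ℤ)) := by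
    rw [hc0def, hpn, ← pow_mul, inv_pow, zpow_neg]
    congr 1
  let r : (I × (E →+* ℂ)) × Fin 2 → ℝ := fun x =>
    (p : ℝ) ^ (-(ht p (P x.1.1) : ℝ) / Module.finrank ℚ E)
  have hr0 : ∀ x, 0 < r x := fun x => Real.rpow_pos_of_pos hp0R _
  have hrn : ∀ x, r x ^ Module.finrank ℚ E = (p : ℝ) ^ (-ht p (P x.1.1)) := by
    intro x
    simp only [r]
    rw [← Real.rpow_natCast, ← Real.rpow_mul hp0R.le, ← Real.rpow_intCast]
    congr 1
    have : (Module.finrank ℚ E : ℝ) ≠ 0 := by exact_mod_cast hd0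
    push_cast
    field_simp
  let ord : (I × (E →+* ℂ)) × Fin 2 → Prop := fun x => NotSS p a (P x.1.1)
  have hr : ∀ x, ord x → c0 < r x ^ 2 := by
    intro x hx
    apply (pow_lt_pow_iff_left₀ hc0.le (pow_nonneg (hr0 x).le 2) hd0).1
    rw [hcpow, ← pow_mul, mul_comm 2, pow_mul, hrn, ← zpow_natCast, ← zpow_mul]
    apply zpow_lt_zpow_right₀ hp1
    have := hx.2
    push_cast
    linarith
  have hord : ∀ x, ord x → ‖iota p (γ x + γ' x)‖ = r x := by
    intro x hx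
    rw [hsum x, map_neg, norm_neg]
    have h1 := abs_of_norm p E w0 hw0 (L x.1.2) (hirr x.1.2) _ hx.1
    have h2 := hrn x
    rw [ht] at h2
    rw [← h2] at h1
    exact (pow_left_inj₀ (norm_nonneg _) (hr0 x).le hd0).1 h1
  have hss : ∀ x, ¬ ord x → ∃ m : ℕ, 0 < m ∧ γ x ^ (2 * m) = ((p : AlgebraicClosure ℚ) ^ a) ^ m := by
    intro x hx
    refine ss_case p a (L x.1.2 w0) (hirr x.1.2) (γ x) (γ' x)
      (fun g hg => by rw [hsum x, map_neg, hfixL _ g hg])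
      (fun g hg => by rw [hprod x, hfixL _ g hg]) (hB x) (hint x) (habs x) ?_
    rw [hsum x, map_neg, norm_neg, ← hc0def]
    by_cases h0 : (P x.1.1).coeff 1 = 0
    · rw [h0, map_zero, map_zero, norm_zero, zero_pow two_ne_zero]
      exact hc0.le
    · have h1 : ¬ (2 * ht p (P x.1.1) < a * Module.finrank ℚ E) := fun h => hx ⟨h0, h⟩
      rw [ht] at h1
      apply (pow_le_pow_iff_left₀ (by positivity) hc0.le hd0).1
      rw [hcpow, ← pow_mul, mul_comm 2, pow_mul,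
        abs_of_norm p E w0 hw0 (L x.1.2) (hirr x.1.2) _ h0, ← zpow_natCast, ← zpow_mul]
      apply zpow_le_zpow_right₀ hp1.le
      push_cast
      linarith
  have hadd : ∀ t : E →+* ℂ, ∀ x (g : AlgebraicClosure ℚ ≃+* AlgebraicClosure ℚ),
      g (L t w0) = L t w0 → g (γ x + γ' x) = γ x + γ' x := fun t x g hg => by
    rw [hsum x, map_neg, hfixL t g hg]
  have hmul : ∀ t : E →+* ℂ, ∀ x (g : AlgebraicClosure ℚ ≃+* AlgebraicClosure ℚ),
      g (L t w0) = L t w0 → g (γ x * γ' x) = γ x * γ' x := fun t x g hg => by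
    rw [hprod x, hfixL t g hg]
  have huo := fun x hx => unit_or2 p a γ γ' ord hB r (fun x _ => hr0 x) hr hord x hx
  have hne : ∀ x, ord x → γ x ≠ γ' x := by
    intro x hx h
    have h3 := hr x hx
    rcases huo x hx with ⟨h1, h2⟩ | ⟨h1, h2⟩
    · rw [← h, h1] at h2
      rw [← hc0def] at h2
      rw [← h2, pow_two] at h3
      exact lt_irrefl _ h3
    · rw [h, h2] at h1
      rw [← hc0def] at h1
      rw [← h1, pow_two] at h3
      exact lt_irrefl _ h3
  have hdisc : ∀ x, (γ x - γ' x) ^ 2 = L x.1.2 (disc (P x.1.1)) := by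
    intro x
    have e1 : (γ x - γ' x) ^ 2 = (γ x + γ' x) ^ 2 - 4 * (γ x * γ' x) := by ring
    rw [e1, hsum x, hprod x, disc, map_sub, map_pow, map_mul, map_ofNat]
    ring
  have hsq : ∀ x y (σ : E ≃+* E), ord x → ord y → (∀ z, L y.1.2 z = L x.1.2 (σ z)) →
      ((∀ g : AlgebraicClosure ℚ ≃+* AlgebraicClosure ℚ, g (L x.1.2 w0) = L x.1.2 w0 →
        (g (γ x) = γ x ↔ g (γ y) = γ y)) ↔
        IsSquare (disc (P x.1.1) * σ (disc (P y.1.1)))) := by
    intro x y σ hx hy hσ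
    refine hSQ E w0 hw0 (L x.1.2) (disc (P x.1.1)) (σ (disc (P y.1.1))) (γ x) (γ' x) (γ y) (γ' y)
      (hne x hx) (hne y hy) (hdisc x) ?_ (fun g hg => swap g (hadd _ x g hg) (hmul _ x g hg))
      (fun g hg => swap g (hadd _ y g hg) (hmul _ y g hg))
    rw [hdisc y, hσ]
  obtain ⟨φ0⟩ : Nonempty (E →+* ℂ) := by
    obtain ⟨f⟩ : Nonempty (E →ₐ[ℚ] AlgebraicClosure ℚ) := ⟨IsAlgClosed.lift⟩
    exact ⟨j.comp f.toRingHom⟩
  have hψ : ∀ z, L (φ0.comp (σ : E →+* E)) z = L φ0 (σ z) := by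
    intro z
    apply j.injective
    rw [hL, hL]
    rfl
  obtain ⟨x, hx1, hx⟩ : ∃ x : (I × (E →+* ℂ)) × Fin 2, x.1 = (i1, φ0) ∧ ‖iota p (γ x)‖ = r x := by
    rcases huo ((i1, φ0), 0) hi1 with ⟨h1, -⟩ | ⟨-, h1⟩
    · exact ⟨((i1, φ0), 0), rfl, h1⟩
    · exact ⟨((i1, φ0), 1), rfl, h1⟩
  obtain ⟨y, hy1, hy⟩ : ∃ y : (I × (E →+* ℂ)) × Fin 2,
      y.1 = (i2, φ0.comp (σ : E →+* E)) ∧ ‖iota p (γ' y)‖ = r y := by
    rcases huo ((i2, φ0.comp (σ : E →+* E)), 0) hi2 with ⟨h1, -⟩ | ⟨-, h1⟩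
    · exact ⟨((i2, φ0.comp (σ : E →+* E)), 1), rfl, h1⟩
    · exact ⟨((i2, φ0.comp (σ : E →+* E)), 0), rfl, h1⟩
  have hxo : ord x := by
    show NotSS p a (P x.1.1)
    rw [hx1]
    exact hi1
  have hyo : ord y := by
    show NotSS p a (P y.1.1)
    rw [hy1]
    exact hi2
  have hchi : ∀ g : AlgebraicClosure ℚ ≃+* AlgebraicClosure ℚ, g (L x.1.2 w0) = L x.1.2 w0 →
      (g (γ x) = γ x ↔ g (γ y) = γ y) := by
    rw [hsq x y σ hxo hyo (by rw [hx1, hy1]; exact hψ), hx1, hy1]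
    exact hsqr
  have hrne : r x ≠ r y := by
    intro h
    have h1 : (p : ℝ) ^ (-ht p (P i1)) = (p : ℝ) ^ (-ht p (P i2)) := by
      have e1 := hrn x
      have e2 := hrn y
      rw [hx1] at e1
      rw [hy1] at e2
      rw [← e1, ← e2, h]
    have h2 := (zpow_right_strictMono₀ hp1).injective h1
    exact hne12 (neg_injective h2)
  obtain ⟨u, hu'⟩ : ∃ u : ℕ, (u : ℤ) = a * Module.finrank ℚ E - 2 * ht p (P i2) :=
    ⟨(a * Module.finrank ℚ E - 2 * ht p (P i2)).toNat, Int.toNat_of_nonneg (by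
      have := hi2.2
      linarith)⟩
  obtain ⟨v, hv'⟩ : ∃ v : ℕ, (v : ℤ) = a * Module.finrank ℚ E - 2 * ht p (P i1) :=
    ⟨(a * Module.finrank ℚ E - 2 * ht p (P i1)).toNat, Int.toNat_of_nonneg (by
      have := hi1.2
      linarith)⟩
  have hu0 : 0 < u := by
    have := hi2.2
    omega
  have hρ : ∀ z : (I × (E →+* ℂ)) × Fin 2, (r z ^ 2 / c0) ^ Module.finrank ℚ E =
      (p : ℝ) ^ ((a * Module.finrank ℚ E : ℤ) - 2 * ht p (P z.1.1)) := by
    intro z
    rw [div_pow, hcpow, ← pow_mul, mul_comm 2, pow_mul, hrn, ← zpow_natCast, ← zpow_mul,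
      ← zpow_sub₀ hp0R.ne']
    congr 1
    push_cast
    ring
  have huv : (r x ^ 2 / c0) ^ u = (r y ^ 2 / c0) ^ v := by
    apply (pow_left_inj₀ (by positivity) (by positivity) hd0).1
    rw [← pow_mul, mul_comm u, pow_mul, hρ x, ← pow_mul, mul_comm v, pow_mul, hρ y, hx1, hy1,
      ← hu', ← hv', ← zpow_natCast, ← zpow_natCast, ← zpow_mul, ← zpow_mul, mul_comm]
  obtain ⟨m, hm, hrel⟩ := rel_of p a (L x.1.2 w0) (hirr _) γ γ' (hadd _) (hmul _) hB hint habs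
    x y (r x) (r y) (hr0 x) (hr0 y) (hr x hxo) (hr y hyo) hx hy u v huv hchi
  have hp0C : (p : ℂ) ≠ 0 := by exact_mod_cast hp.out.ne_zero
  have hyn : ‖iota p (γ y)‖ * r y = c0 := by
    have := Bnorm p a γ γ' hB y
    rwa [hy] at this
  have hnn : ∀ z, 0 ≤ ‖iota p (γ z)‖ := fun z => norm_nonneg _
  refine ⟨x, y, u, v, hu0, ?_, ?_, ?_, ?_⟩
  · refine ⟨m, hm, ?_⟩
    have h1 := congrArg j hrel
    rw [map_pow, map_mul, map_pow, map_pow, hγj, hγj, map_pow, map_pow, map_natCast] at h1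
    exact h1
  · rintro ⟨m', hm', h1⟩
    have h2 : (γ x * γ x) ^ m' = ((p : AlgebraicClosure ℚ) ^ a) ^ m' := by
      apply j.injective
      rw [map_pow, map_mul, hγj, map_pow, map_pow, map_natCast]
      exact h1
    have h3 := congrArg (fun z => ‖iota p z‖) h2
    simp only [map_pow, map_mul, norm_pow, norm_mul] at h3
    rw [← hc0def, hx] at h3
    have h4 := (pow_left_inj₀ (mul_nonneg (hr0 x).le (hr0 x).le) hc0.le hm'.ne').1 h3
    have h5 := hr x hxo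
    rw [pow_two, h4] at h5
    exact lt_irrefl _ h5
  · rintro ⟨m', hm', h1⟩
    have h2 : (γ x * γ y) ^ m' = ((p : AlgebraicClosure ℚ) ^ a) ^ m' := by
      apply j.injective
      rw [map_pow, map_mul, hγj, hγj, map_pow, map_pow, map_natCast]
      exact h1
    have h3 := congrArg (fun z => ‖iota p z‖) h2
    simp only [map_pow, map_mul, norm_pow, norm_mul] at h3
    rw [← hc0def, hx] at h3
    have h4 := (pow_left_inj₀ (mul_nonneg (hr0 x).le (hnn y)) hc0.le hm'.ne').1 h3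
    rw [← hyn, mul_comm] at h4
    have h5 : ‖iota p (γ y)‖ ≠ 0 := by
      intro h6
      rw [h6, zero_mul] at hyn
      exact hc0.ne hyn
    exact hrne (mul_left_cancel₀ h5 h4)
  · rintro ⟨m', hm', h1⟩
    have h2 : γ x ^ m' = γ y ^ m' := by
      apply j.injective
      rw [map_pow, map_pow, hγj, hγj]
      exact h1
    have h3 := congrArg (fun z => ‖iota p z‖) h2
    simp only [map_pow, norm_pow] at h3
    have h4 := (pow_left_inj₀ (hnn x) (hnn y) hm'.ne').1 h3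
    rw [hx] at h4
    rw [← h4] at hyn
    have h5 := hr x hxo
    have h6 := hr y hyo
    have h7 := hr0 x
    have h8 := hr0 y
    nlinarith

end Pool.Agent.H856.PR
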