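import Mathlib

/-! # Products of abelian varieties with multiplication by one field: definitions -/

set_option autoImplicit false

open Polynomial NumberField

namespace Pool.Agent.H856.PR

/-- the discriminant of a quadratic polynomial -/
def disc {E : Type} [Field E] (P : E[X]) : E := P.coeff 1 ^ 2 - 4 * P.coeff 0

/-- the `p`-adic valuation of the norm of the linear coefficient: `a [E : ℚ]` times the smaller slope,
if this slope is not `1 / 2` -/
noncomputable def ht (p : ℕ) {E : Type} [Field E] [NumberField E] (P : E[X]) : ℤ :=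
  padicValRat p (Algebra.norm ℚ (P.coeff 1))

/-- the slopes are not `1 / 2` -/
def NotSS (p a : ℕ) {E : Type} [Field E] [NumberField E] (P : E[X]) : Prop :=
  P.coeff 1 ≠ 0 ∧ 2 * ht p P < a * Module.finrank ℚ E

/-- the nonzero complex numbers with a power in `M` -/
def PowerIn (M : Subfield ℂ) (x : ℂ) : Prop := x ≠ 0 ∧ ∃ N : ℕ, 0 < N ∧ x ^ N ∈ M

/-- **The families.** `E` is a Galois number field, totally real or CM (`c` is its complex conjugation), with only
one place above `p`; the polynomials `P i` are monic of degree two with coefficients in the ring of integers of `E`;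
the `Γ ((i, φ), k)`, `k = 0, 1`, are the roots of `φ (P i)`, of absolute value `√q`, `q = p ^ a`; two of them are equal
if they are equal up to a root of unity (this can be achieved by a finite extension of the ground field), and none of
the `P i` is supersingular. -/
structure IsFamily (p a : ℕ) [Fact p.Prime] {E : Type} [Field E] [NumberField E] {I : Type}
    (P : I → E[X]) (Γ : (I × (E →+* ℂ)) × Fin 2 → ℂ) : Prop where
  pos : 0 < a
  galois : IsGalois ℚ E
  conj : ∃ c : E →+* E, ∀ (φ : E →+* ℂ) (x : E), φ (c x) = (starRingEnd ℂ) (φ x)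
  onePlace : ∀ I J : Ideal (𝓞 E), I.IsPrime → J.IsPrime → (p : 𝓞 E) ∈ I → (p : 𝓞 E) ∈ J → I = J
  monic : ∀ i, (P i).Monic
  degree : ∀ i, (P i).natDegree = 2
  integral : ∀ i n, IsIntegral ℤ ((P i).coeff n)
  roots : ∀ i (φ : E →+* ℂ), (P i).map φ = ∏ k, (X - C (Γ ((i, φ), k)))
  weil : ∀ x, ‖Γ x‖ ^ 2 = (p : ℝ) ^ a
  reduced : ∀ x y, (∃ m : ℕ, 0 < m ∧ Γ x ^ m = Γ y ^ m) → Γ x = Γ y
  notSS : ∀ i, NotSS p a (P i)

/-- **The slope condition**: the slopes of `P i` and `P j` are equal, if the quadratic extensions of `E` which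
they define are conjugate. -/
def SameSlopes (p : ℕ) {E : Type} [Field E] [NumberField E] {I : Type} (P : I → E[X]) : Prop :=
  ∀ (i j : I) (σ : E ≃+* E), IsSquare (disc (P i) * σ (disc (P j))) → ht p (P i) = ht p (P j)

/-- `M` contains the conjugates of `E`, and no root of a conjugate of `P i`. -/
structure Avoids {E : Type} [Field E] {I : Type} (Γ : (I × (E →+* ℂ)) × Fin 2 → ℂ)
    (M : Subfield ℂ) : Prop where
  field : ∀ (φ : E →+* ℂ) (y : E), φ y ∈ M
  root : ∀ x, Γ x ∉ M

/-- **There are no relations** between the numbers `Γ x` and numbers in `M`, but those which come from pairs with the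
product `q`: if a power of the product of the numbers in a nonempty multiset `w` is in `M`, then `w` contains a pair
with the product `q`. -/
def NoRelations {Λ : Type} (q : ℂ) (Γ : Λ → ℂ) (M : Subfield ℂ) : Prop :=
  ∀ w : Multiset Λ, w ≠ 0 → (∃ K : ℕ, 0 < K ∧ (w.map Γ).prod ^ K ∈ M) →
    ∃ x y, {x, y} ≤ w ∧ Γ x * Γ y = q

end Pool.Agent.H856.PR
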