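import Pool.Agent.H856.WE.Div
import Pool.Agent.H856.WD.PlaProof
import Pool.Agent.H856.KA.Stm

/-! # Products: statements -/

set_option autoImplicit false

open Polynomial NumberField

namespace Pool.Agent.H856.PR

open Pool.Agent.H856.WD Pool.Agent.H856.WE

/-- EXO: a multiplicative relation which does not come from dual pairs gives a Tate class which is not
in the span of products of classes of degree two -/
def S_EXO : Prop :=
  ∀ (T : Type) [Fintype T] [DecidableEq T] (N : ℕ) (q : ℂ) (Γ : T × Fin N → ℂ), q ≠ 0 →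
    (∀ x, Γ x ≠ 0) → ∀ (x y : T × Fin N) (u v : ℕ), 0 < u →
    (∃ m : ℕ, 0 < m ∧ (Γ x ^ u * Γ y ^ v) ^ (2 * m) = q ^ ((u + v) * m)) →
    ¬ Dual q Γ x x → ¬ Dual q Γ x y → ¬ Eqv Γ x y →
    ∃ A : ∀ n, Submodule ℂ (Tens T N n), IsDivisorSystem q Γ A ∧
      ∃ (n : ℕ) (S : Tens T N n), IsTate q Γ S ∧ S ∉ A n

/-- SIG: two embeddings of a Galois number field differ by an automorphism -/
def S_SIG : Prop :=
  ∀ (E : Type) [Field E] [NumberField E] [IsGalois ℚ E] (f f' : E →+* AlgebraicClosure ℚ),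
    ∃ σ : E ≃+* E, ∀ x, f' x = f (σ x)

/-- SQ: the roots of two quadratic polynomials with discriminants `d`, `d'` have the same stabilizers if
and only if `d d'` is a square -/
def S_SQ : Prop :=
  ∀ (E : Type) [Field E] [NumberField E] (w0 : E), IntermediateField.adjoin ℚ {w0} = ⊤ →
    ∀ (f : E →+* AlgebraicClosure ℚ) (d d' : E) (α α' β β' : AlgebraicClosure ℚ),
    α ≠ α' → β ≠ β' → (α - α') ^ 2 = f d → (β - β') ^ 2 = f d' →
    (∀ g : AlgebraicClosure ℚ ≃+* AlgebraicClosure ℚ, g (f w0) = f w0 →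
      (g α = α ∧ g α' = α') ∨ (g α = α' ∧ g α' = α)) →
    (∀ g : AlgebraicClosure ℚ ≃+* AlgebraicClosure ℚ, g (f w0) = f w0 →
      (g β = β ∧ g β' = β') ∨ (g β = β' ∧ g β' = β)) →
    ((∀ g : AlgebraicClosure ℚ ≃+* AlgebraicClosure ℚ, g (f w0) = f w0 → (g α = α ↔ g β = β)) ↔
      IsSquare (d * d'))

/-- KLO: the two numbers whose power sums are the Kloosterman sums over the extensions of `F` -/
def S_KLO : Prop :=
  ∀ (p : ℕ) [Fact p.Prime] (F : Type) [Field F] [Finite F] [Algebra (ZMod p) F] (b : F) (z : ℂ),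
    b ≠ 0 → IsPrimitiveRoot z p → ∀ u v : ℂ,
    (∀ (L : Type) [Field L] [Finite L] [Algebra F L] [Algebra (ZMod p) L]
      [IsScalarTower (ZMod p) F L],
      KA.klo p z L (algebraMap F L b) = -(u ^ Module.finrank F L + v ^ Module.finrank F L)) →
    u * v = (Nat.card F : ℂ) ∧ ‖u‖ ^ 2 = (Nat.card F : ℝ) ∧ ‖v‖ ^ 2 = (Nat.card F : ℝ) ∧
      u + v = -KA.klo p z F b

/-- ONE: there is one place above `p` in the field of the `p`-th roots of unity -/
def S_ONE : Prop :=
  ∀ (p : ℕ) [Fact p.Prime] (I J : Ideal (𝓞 (CyclotomicField p ℚ))), I.IsPrime → J.IsPrime →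
    (p : 𝓞 (CyclotomicField p ℚ)) ∈ I → (p : 𝓞 (CyclotomicField p ℚ)) ∈ J → I = J

/-- CNJ: the complex conjugation of the field of the `p`-th roots of unity -/
def S_CNJ : Prop :=
  ∀ (p : ℕ) [Fact p.Prime], ∃ c : CyclotomicField p ℚ →+* CyclotomicField p ℚ,
    ∀ (φ : CyclotomicField p ℚ →+* ℂ) (x : CyclotomicField p ℚ), φ (c x) = (starRingEnd ℂ) (φ x)

end Pool.Agent.H856.PR
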