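import Pool.Agent.H856.PR.Stm

/-! # EXO: a class outside the system generated in degree two -/

set_option autoImplicit false

namespace Pool.Agent.H856.PR

open Pool.Agent.H856.WD Pool.Agent.H856.WE

namespace Exo

variable {T : Type} {N : ℕ} {q : ℂ} {Γ : T × Fin N → ℂ}

theorem eqv_congr {z y x : T × Fin N} {m : ℕ} (hm : 0 < m) (h : Γ z ^ m = Γ y ^ m)
    (hz : Eqv Γ z x) : Eqv Γ y x := by
  obtain ⟨k, hk, hzk⟩ := hz
  refine ⟨m * k, Nat.mul_pos hm hk, ?_⟩
  rw [pow_mul, ← h, ← pow_mul, mul_comm m k, pow_mul, hzk, ← pow_mul]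

theorem dual_congr {z y x : T × Fin N} {m : ℕ} (hm : 0 < m) (h : Γ z ^ m = Γ y ^ m)
    (hz : Dual q Γ z x) : Dual q Γ y x := by
  obtain ⟨k, hk, hzk⟩ := hz
  refine ⟨m * k, Nat.mul_pos hm hk, ?_⟩
  have h1 : (Γ z * Γ x) ^ (m * k) = q ^ (m * k) := by
    rw [mul_comm m k, pow_mul, hzk, ← pow_mul]
  rw [mul_pow, pow_mul (Γ y), ← h, ← pow_mul, ← mul_pow, h1]

theorem dual_symm {x y : T × Fin N} (h : Dual q Γ x y) : Dual q Γ y x := by
  obtain ⟨k, hk, h1⟩ := h
  exact ⟨k, hk, by rw [mul_comm, h1]⟩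

theorem eqv_symm {x y : T × Fin N} (h : Eqv Γ x y) : Eqv Γ y x := by
  obtain ⟨k, hk, h1⟩ := h
  exact ⟨k, hk, h1.symm⟩

theorem dual_of_eqv {a b x : T × Fin N} (h : Dual q Γ a b) (ha : Eqv Γ a x) : Dual q Γ b x := by
  obtain ⟨m, hm, h1⟩ := h
  obtain ⟨k, hk, h2⟩ := ha
  refine ⟨m * k, Nat.mul_pos hm hk, ?_⟩
  have h3 : Γ x ^ (m * k) = Γ a ^ (m * k) := by
    rw [mul_comm m k, pow_mul, ← h2, ← pow_mul]
  rw [mul_pow, h3, ← mul_pow, mul_comm (Γ b), pow_mul, h1, ← pow_mul]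

theorem eqv_of_dual (hΓ : ∀ x, Γ x ≠ 0) {a b x : T × Fin N} (h : Dual q Γ a b)
    (hb : Dual q Γ b x) : Eqv Γ a x := by
  obtain ⟨m, hm, h1⟩ := h
  obtain ⟨k, hk, h2⟩ := hb
  refine ⟨m * k, Nat.mul_pos hm hk, ?_⟩
  have h3 : (Γ a * Γ b) ^ (m * k) = q ^ (m * k) := by rw [pow_mul, h1, ← pow_mul]
  have h4 : (Γ b * Γ x) ^ (m * k) = q ^ (m * k) := by
    rw [mul_comm m k, pow_mul, h2, ← pow_mul]
  have h5 : Γ b ^ (m * k) * Γ a ^ (m * k) = Γ b ^ (m * k) * Γ x ^ (m * k) := by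
    rw [← mul_pow, ← mul_pow, h4, mul_comm (Γ b), h3]
  exact mul_left_cancel₀ (pow_ne_zero _ (hΓ b)) h5

open Classical in
/-- the weight of a letter -/
noncomputable def ind (q : ℂ) (Γ : T × Fin N → ℂ) (x z : T × Fin N) : ℤ :=
  (if Eqv Γ z x then 1 else 0) - (if Dual q Γ z x then 1 else 0)

theorem ind_congr {z y x : T × Fin N} {m : ℕ} (hm : 0 < m) (h : Γ z ^ m = Γ y ^ m) :
    ind q Γ x z = ind q Γ x y := by
  have h1 : Eqv Γ z x ↔ Eqv Γ y x := ⟨eqv_congr hm h, eqv_congr hm h.symm⟩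
  have h2 : Dual q Γ z x ↔ Dual q Γ y x := ⟨dual_congr hm h, dual_congr hm h.symm⟩
  classical
  unfold ind
  simp only [h1, h2]

theorem ind_dual (hΓ : ∀ x, Γ x ≠ 0) {a b x : T × Fin N} (h : Dual q Γ a b) :
    ind q Γ x a + ind q Γ x b = 0 := by
  have h1 : Eqv Γ a x ↔ Dual q Γ b x := ⟨dual_of_eqv h, eqv_of_dual hΓ h⟩
  have h2 : Eqv Γ b x ↔ Dual q Γ a x := ⟨dual_of_eqv (dual_symm h), eqv_of_dual hΓ (dual_symm h)⟩
  classical
  unfold ind
  simp only [h1, h2]
  ring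

/-- the classes supported on the words of weight zero -/
noncomputable def AA (q : ℂ) (Γ : T × Fin N → ℂ) (x : T × Fin N) (n : ℕ) :
    Submodule ℂ (Tens T N n) where
  carrier := {S | ∀ a, S a ≠ 0 → ∑ i, ind q Γ x (a i) = 0}
  add_mem' := by
    intro S S' hS hS' a ha
    by_cases h : S a = 0
    · refine hS' a fun h' => ha ?_
      show S a + S' a = 0
      rw [h, h', add_zero]
    · exact hS a h
  zero_mem' := by
    intro a ha
    exact absurd rfl ha
  smul_mem' := by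
    intro c S hS a ha
    refine hS a fun h => ha ?_
    show c * S a = 0
    rw [h, mul_zero]

theorem mem_AA {x : T × Fin N} {n : ℕ} {S : Tens T N n} :
    S ∈ AA q Γ x n ↔ ∀ a, S a ≠ 0 → ∑ i, ind q Γ x (a i) = 0 := Iff.rfl

theorem system [Fintype T] [DecidableEq T] (hΓ : ∀ x, Γ x ≠ 0) (x : T × Fin N) :
    IsDivisorSystem q Γ (AA q Γ x) where
  unit := by
    rw [mem_AA]
    intro a _
    exact Finset.sum_of_isEmpty _
  prod := by
    intro m n S S' hS hS'
    rw [mem_AA] at hS hS' ⊢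
    intro a ha
    have h1 : S (fun i => a (Fin.castAdd n i)) ≠ 0 := left_ne_zero_of_mul ha
    have h2 : S' (fun i => a (Fin.natAdd m i)) ≠ 0 := right_ne_zero_of_mul ha
    rw [Fin.sum_univ_add, hS _ h1, hS' _ h2, add_zero]
  perm := by
    intro n S σ hS
    rw [mem_AA] at hS ⊢
    intro a ha
    have h1 := hS (a ∘ σ) ha
    rw [← h1]
    exact (Equiv.sum_comp σ (fun i => ind q Γ x (a i))).symm
  endo := by
    intro E m hm hE n S i hS
    rw [mem_AA] at hS ⊢
    intro a ha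
    obtain ⟨y, -, hy⟩ := Finset.exists_ne_zero_of_sum_ne_zero ha
    have h1 := hE _ _ (left_ne_zero_of_mul hy)
    have h2 := hS _ (right_ne_zero_of_mul hy)
    rw [← h2]
    refine Finset.sum_congr rfl fun j _ => ?_
    by_cases hj : j = i
    · subst hj
      rw [Function.update_self]
      exact ind_congr hm h1
    · rw [Function.update_of_ne hj]
  tate := by
    rintro S ⟨m, c, hm, hc, h⟩
    rw [mem_AA]
    intro a ha
    have h1 := h a ha
    obtain rfl : c = 1 := by omega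
    rw [one_mul, Fin.prod_univ_two] at h1
    rw [Fin.sum_univ_two]
    exact ind_dual hΓ ⟨m, hm, h1⟩

end Exo

open Exo in
theorem exo : S_EXO := by
  classical
  intro T _ _ N q Γ hq hΓ x y u v hu hm hxx hxy he
  obtain ⟨m, hm, hrel⟩ := hm
  refine ⟨AA q Γ x, system hΓ x, 2 * u + 2 * v,
    fun b => if b = Fin.append (fun _ : Fin (2 * u) => x) (fun _ : Fin (2 * v) => y) then 1 else 0,
    ⟨m, u + v, hm, by ring, ?_⟩, ?_⟩
  · intro a ha
    have h1 : a = Fin.append (fun _ : Fin (2 * u) => x) (fun _ : Fin (2 * v) => y) := by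
      by_contra h
      exact ha (if_neg h)
    rw [h1, Fin.prod_univ_add]
    simp only [Fin.append_left, Fin.append_right, Finset.prod_const, Finset.card_univ,
      Fintype.card_fin]
    rw [← hrel, mul_comm 2 u, mul_comm 2 v, pow_mul, pow_mul, ← mul_pow, ← pow_mul]
  · intro h
    rw [mem_AA] at h
    have h1 := h (Fin.append (fun _ : Fin (2 * u) => x) (fun _ : Fin (2 * v) => y)) (by
      rw [if_pos rfl]
      exact one_ne_zero)
    rw [Fin.sum_univ_add] at h1
    simp only [Fin.append_left, Fin.append_right, Finset.sum_const, Finset.card_univ,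
      Fintype.card_fin] at h1
    have h2 : ind q Γ x x = 1 := by
      unfold ind
      rw [if_pos ⟨1, one_pos, rfl⟩, if_neg hxx]
      norm_num
    have h3 : ind q Γ x y = 0 := by
      unfold ind
      rw [if_neg (fun h => he (eqv_symm h)), if_neg (fun h => hxy (dual_symm h))]
      norm_num
    rw [h2, h3, smul_zero, add_zero, nsmul_eq_mul, mul_one] at h1
    have h4 : (2 * u : ℕ) = 0 := by exact_mod_cast h1
    omega

end Pool.Agent.H856.PR
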