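import Pool.Agent.H856.PR.Pr2

/-! # Products: relations with numbers in a subfield -/

set_option autoImplicit false

open Polynomial

namespace Pool.Agent.H856.PR

open Pool.Agent.H856.WD Pool.Agent.H856.WE

section

variable (p a : ℕ) [hp : Fact p.Prime] (ha : 0 < a) (θ : AlgebraicClosure ℚ)
  (hirr : Irreducible ((minpoly ℚ θ).map (algebraMap ℚ ℚ_[p]))) {Λ : Type}
  (γ γ' : Λ → AlgebraicClosure ℚ) (ord : Λ → Prop)
  (hadd : ∀ l (g : AlgebraicClosure ℚ ≃+* AlgebraicClosure ℚ), g θ = θ →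
    g (γ l + γ' l) = γ l + γ' l)
  (hmul : ∀ l (g : AlgebraicClosure ℚ ≃+* AlgebraicClosure ℚ), g θ = θ →
    g (γ l * γ' l) = γ l * γ' l)
  (hB : ∀ l, ∃ m : ℕ, 0 < m ∧ (γ l * γ' l) ^ m = ((p : AlgebraicClosure ℚ) ^ a) ^ m)
  (hi : ∀ l, IsIntegral ℤ (γ l))
  (habs : ∀ l (φ : AlgebraicClosure ℚ →+* ℂ), ‖φ (γ l)‖ ^ 2 = (p : ℝ) ^ a)
  (r : Λ → ℝ) (hr0 : ∀ l, ord l → 0 < r l)
  (hr : ∀ l, ord l → ‖iota p (p : AlgebraicClosure ℚ)‖ ^ a < r l ^ 2)
  (hord : ∀ l, ord l → ‖iota p (γ l + γ' l)‖ = r l)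
  (hss : ∀ l, ¬ ord l → ∃ m : ℕ, 0 < m ∧ γ l ^ (2 * m) = ((p : AlgebraicClosure ℚ) ^ a) ^ m)
  (hcrit : ∀ l k, ord l → ord k →
    (∀ g : AlgebraicClosure ℚ ≃+* AlgebraicClosure ℚ, g θ = θ →
      (g (γ l) = γ l ↔ g (γ k) = γ k)) → r l = r k)

include hirr hadd hmul hB hi habs hr0 hr hord hss hcrit in
theorem pr3 (w : Multiset Λ) (l0 : Λ) (hl0 : l0 ∈ w) (hl0o : ord l0)
    (g0 : AlgebraicClosure ℚ ≃+* AlgebraicClosure ℚ) (hg0 : g0 θ = θ) (hmove : g0 (γ l0) ≠ γ l0)
    (hinv : ∀ h : AlgebraicClosure ℚ ≃+* AlgebraicClosure ℚ, h θ = θ →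
      ‖iota p (h (g0 (w.map γ).prod))‖ = ‖iota p (h (w.map γ).prod)‖) :
    ∃ l1, {l0, l1} ≤ w ∧ ∃ k : ℕ, 0 < k ∧ (γ l0 * γ l1) ^ k = ((p : AlgebraicClosure ℚ) ^ a) ^ k := by
  classical
  obtain ⟨vadd, vint, vp, vl, vz⟩ := KA.val p
  have hp0 : (p : AlgebraicClosure ℚ) ≠ 0 := by exact_mod_cast hp.out.ne_zero
  set c : ℝ := ‖iota p (p : AlgebraicClosure ℚ)‖ ^ a with hc
  have hc0 : 0 < c := pow_pos (lt_of_le_of_ne (norm_nonneg _) (norm_ne p hp0).symm) a
  have hc' : ‖((p : ℕ) : PadicAlgCl p)‖ ^ a = c := by rw [hc, map_natCast]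
  let ρ : Λ → ℝ := fun l => r l ^ 2 / c
  have hρ1 : ∀ l, ord l → 1 < ρ l := fun l hl => by
    simp only [ρ]
    rw [one_lt_div hc0]; exact hr l hl
  have hρ0 : ∀ l, ord l → 0 < ρ l := fun l hl => lt_trans one_pos (hρ1 l hl)
  have hρr : ∀ l, ord l → c * ρ l = r l ^ 2 := fun l _ => by simp only [ρ]; field_simp
  have hρi : ∀ l, ord l → ∀ x : ℝ, x * r l = c → x ^ 2 = c * (ρ l)⁻¹ := by
    intro l hl x hx
    have h0 := (hr0 l hl).ne'
    simp only [ρ]
    rw [inv_div]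
    have : x = c / r l := by rw [← hx]; field_simp
    rw [this]
    field_simp
  have hrne : ∀ l, ord l → ∀ x : ℝ, x * r l = c → x ≠ r l := by
    rintro l hl x hx h
    have h1 := hr l hl
    rw [h] at hx
    rw [← hx, pow_two] at h1
    exact lt_irrefl _ h1
  have huo := fun l hl => unit_or2 p a γ γ' ord hB r hr0 hr hord l hl
  have hne : ∀ l, ord l → γ l ≠ γ' l := by
    intro l hl h
    rcases huo l hl with ⟨h1, h2⟩ | ⟨h1, h2⟩
    · rw [← h] at h2
      exact hrne l hl _ h2 h1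
    · rw [h] at h1
      exact hrne l hl _ h1 h2
  -- the signs
  let s : Λ → ℝ := fun l => if ‖iota p (γ l)‖ = r l then 1 else -1
  let e : (AlgebraicClosure ℚ ≃+* AlgebraicClosure ℚ) → Λ → ℝ :=
    fun g l => if ord l then s l * Real.log (ρ l) * (if g (γ l) = γ l then 1 else -1) else 0
  have hexp : ∀ l, ord l → Real.exp (Real.log (ρ l)) = ρ l := fun l hl => Real.exp_log (hρ0 l hl)
  have hexpn : ∀ l, ord l → Real.exp (-Real.log (ρ l)) = (ρ l)⁻¹ := fun l hl => by
    rw [Real.exp_neg, hexp l hl]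
  have hnorm : ∀ g : AlgebraicClosure ℚ ≃+* AlgebraicClosure ℚ, g θ = θ → ∀ l,
      ‖iota p (g (γ l))‖ ^ 2 = c * Real.exp (e g l) := by
    intro g hg l
    by_cases hl : ord l
    · simp only [e, if_pos hl, s]
      rcases huo l hl with ⟨h1, h2⟩ | ⟨h1, h2⟩ <;>
        rcases swap g (hadd l g hg) (hmul l g hg) with ⟨h3, -⟩ | ⟨h3, -⟩
      · rw [h3, if_pos h1, if_pos rfl, h1, mul_one, one_mul, hexp l hl, hρr l hl]
      · rw [h3, if_pos h1, if_neg (hne l hl).symm, hρi l hl _ h2, one_mul, mul_neg_one, hexpn l hl]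
      · rw [h3, if_neg (hrne l hl _ h1), if_pos rfl, hρi l hl _ h1, mul_one, neg_one_mul, hexpn l hl]
      · rw [h3, if_neg (hrne l hl _ h1), if_neg (hne l hl).symm, h2, neg_one_mul, mul_neg_one,
          neg_neg, hexp l hl, hρr l hl]
    · simp only [e, if_neg hl, Real.exp_zero, mul_one]
      obtain ⟨k, hk, h1⟩ := hss l hl
      have h2 := congrArg (fun z => ‖iota p (g z)‖) h1
      simp only [map_pow, norm_pow, map_natCast] at h2
      rw [pow_mul, hc'] at h2
      exact (pow_left_inj₀ (by positivity) hc0.le hk.ne').1 h2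
  have h3 : ∀ g : AlgebraicClosure ℚ ≃+* AlgebraicClosure ℚ, g θ = θ → ∀ v : Multiset Λ,
      ‖iota p (g (v.map γ).prod)‖ ^ 2 = c ^ v.card * Real.exp (v.map (e g)).sum := by
    intro g hg v
    induction v using Multiset.induction_on with
    | empty => simp
    | cons l v ih =>
      rw [Multiset.map_cons, Multiset.prod_cons, map_mul, map_mul, norm_mul, mul_pow, ih,
        hnorm g hg l, Multiset.card_cons, Multiset.map_cons,
        Multiset.sum_cons, Real.exp_add, pow_succ]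
      ring
  have hsum : ∀ g : AlgebraicClosure ℚ ≃+* AlgebraicClosure ℚ, g θ = θ →
      (w.map (e (g0.trans g))).sum = (w.map (e g)).sum := by
    intro g hg
    have h1 := hinv g hg
    have h2 : (g0.trans g) θ = θ := by
      rw [RingEquiv.trans_apply, hg0, hg]
    have h4 := h3 (g0.trans g) h2 w
    rw [RingEquiv.trans_apply, h1, h3 g hg w] at h4
    have h5 := mul_left_cancel₀ (pow_ne_zero w.card hc0.ne') h4
    exact (Real.exp_injective h5).symm
  -- the characters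
  let χ : Λ → (Gs θ →* ℝ) := fun l => if hl : ord l then
    ((Rat.castHom ℝ : ℚ →+* ℝ) : ℚ →* ℝ).comp
      (sg θ (γ l) (γ' l) (hne l hl) (fun g hg => swap g (hadd l g hg) (hmul l g hg))) else 1
  have hχ : ∀ l, ord l → ∀ g : Gs θ, χ l g =
      if (g : RingAut (AlgebraicClosure ℚ)) (γ l) = γ l then 1 else -1 := by
    intro l hl g
    simp only [χ, dif_pos hl]
    show ((if (g : RingAut (AlgebraicClosure ℚ)) (γ l) = γ l then 1 else -1 : ℚ) : ℝ) = _
    split_ifs <;> norm_num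
  have hli := linearIndependent_monoidHom (Gs θ) ℝ
  rw [linearIndependent_iff'] at hli
  let F : Finset Λ := w.toFinset.filter ord
  let S : Finset (Gs θ →* ℝ) := F.image χ
  let G0 : Gs θ := ⟨g0, hg0⟩
  let cc : (Gs θ →* ℝ) → ℝ := fun x => ∑ l ∈ F.filter (fun l => χ l = x),
    (w.count l : ℝ) * (s l * Real.log (ρ l) * (χ l G0 - 1))
  have hzero : ∑ x ∈ S, cc x • (x : Gs θ → ℝ) = 0 := by
    funext g
    simp only [Finset.sum_apply, Pi.smul_apply, smul_eq_mul, Pi.zero_apply]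
    have h1 := hsum g.1 g.2
    rw [Finset.sum_multiset_map_count, Finset.sum_multiset_map_count, ← sub_eq_zero,
      ← Finset.sum_sub_distrib] at h1
    have h2 : ∑ x ∈ S, cc x * x g =
        ∑ l ∈ F, (w.count l : ℝ) * (s l * Real.log (ρ l) * (χ l G0 - 1)) * χ l g := by
      rw [← Finset.sum_fiberwise_of_maps_to (s := F) (t := S) (g := χ)
        (fun l hl => Finset.mem_image_of_mem _ hl)]
      refine Finset.sum_congr rfl fun x _ => ?_
      rw [Finset.sum_mul]
      refine Finset.sum_congr rfl fun l hl => ?_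
      rw [(Finset.mem_filter.1 hl).2]
    rw [h2, ← h1, Finset.sum_filter]
    refine Finset.sum_congr rfl fun l _ => ?_
    by_cases hl : ord l
    · have h5 : χ l (g * G0) = χ l g * χ l G0 := map_mul _ _ _
      have h6 : χ l (g * G0) = if (g0.trans g.1) (γ l) = γ l then 1 else -1 := hχ l hl (g * G0)
      have h7 : χ l g = if g.1 (γ l) = γ l then 1 else -1 := hχ l hl g
      rw [if_pos hl]
      simp only [e, if_pos hl]
      rw [← h6, ← h7, h5, nsmul_eq_mul, nsmul_eq_mul]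
      ring
    · rw [if_neg hl]
      simp only [e, if_neg hl, smul_zero, sub_zero]
  have hcc := hli S cc hzero (χ l0) (Finset.mem_image_of_mem _
    (Finset.mem_filter.2 ⟨Multiset.mem_toFinset.2 hl0, hl0o⟩))
  -- letters with the same character
  have hiff0 : ∀ l1, ord l1 → χ l1 = χ l0 → ∀ g : AlgebraicClosure ℚ ≃+* AlgebraicClosure ℚ,
      g θ = θ → (g (γ l0) = γ l0 ↔ g (γ l1) = γ l1) := by
    intro l1 hl1o hchi g hg
    have h1 := DFunLike.congr_fun hchi (⟨g, hg⟩ : Gs θ)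
    rw [hχ l1 hl1o, hχ l0 hl0o] at h1
    have e1 : ((⟨g, hg⟩ : Gs θ) : RingAut (AlgebraicClosure ℚ)) = g := rfl
    rw [e1] at h1
    by_cases h2 : g (γ l0) = γ l0 <;> by_cases h3 : g (γ l1) = γ l1
    · exact ⟨fun _ => h3, fun _ => h2⟩
    · rw [if_neg h3, if_pos h2] at h1
      norm_num at h1
    · rw [if_pos h3, if_neg h2] at h1
      norm_num at h1
    · exact ⟨fun h => absurd h h2, fun h => absurd h h3⟩
  have hs4 : ∀ l, s l = 1 ∨ s l = -1 := by
    intro l
    simp only [s]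
    split_ifs
    · left; rfl
    · right; rfl
  -- a letter of the other sign
  have hex : ∃ l1 ∈ w, ord l1 ∧ χ l1 = χ l0 ∧ s l1 = - s l0 := by
    by_contra hcon
    push Not at hcon
    have hG0 : χ l0 G0 = -1 := by
      rw [hχ l0 hl0o]
      exact if_neg hmove
    have h1 : ∀ l ∈ F.filter (fun l => χ l = χ l0),
        (w.count l : ℝ) * (s l * Real.log (ρ l) * (χ l G0 - 1)) =
        (w.count l : ℝ) * (s l0 * Real.log (ρ l0) * (-2)) := by
      intro l hl
      rw [Finset.mem_filter, Finset.mem_filter, Multiset.mem_toFinset] at hl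
      have h2 := hcon l hl.1.1 hl.1.2 hl.2
      have h3 : s l = s l0 := by
        rcases hs4 l with h5 | h5 <;> rcases hs4 l0 with h6 | h6 <;> rw [h5, h6] at h2 ⊢
        · exact absurd (neg_neg (1 : ℝ)).symm h2
        · exact absurd rfl h2
      have h4 : ρ l = ρ l0 := by
        have h5 := hcrit l0 l hl0o hl.1.2 (hiff0 l hl.1.2 hl.2)
        simp only [ρ, h5]
      rw [h3, h4, hl.2, hG0]
      ring
    simp only [cc] at hcc
    rw [Finset.sum_congr rfl h1, ← Finset.sum_mul] at hcc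
    rcases mul_eq_zero.1 hcc with h2 | h2
    · have h3 : (0 : ℝ) < ∑ l ∈ F.filter (fun l => χ l = χ l0), (w.count l : ℝ) := by
        refine Finset.sum_pos' (fun l _ => Nat.cast_nonneg _) ⟨l0, ?_, ?_⟩
        · rw [Finset.mem_filter, Finset.mem_filter, Multiset.mem_toFinset]
          exact ⟨⟨hl0, hl0o⟩, rfl⟩
        · exact_mod_cast Multiset.count_pos.2 hl0
      exact h3.ne' h2
    · rcases mul_eq_zero.1 h2 with h4 | h4
      · rcases mul_eq_zero.1 h4 with h3 | h3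
        · rcases hs4 l0 with h5 | h5 <;> rw [h5] at h3 <;> norm_num at h3
        · exact (Real.log_pos (hρ1 l0 hl0o)).ne' h3
      · norm_num at h4
  obtain ⟨l1, hl1, hl1o, hchi, hsgn⟩ := hex
  have hne01 : l0 ≠ l1 := by
    rintro rfl
    rcases hs4 l0 with h5 | h5 <;> rw [h5] at hsgn <;> norm_num at hsgn
  have hiff := hiff0 l1 hl1o hchi
  have hrr : r l0 = r l1 := hcrit l0 l1 hl0o hl1o hiff
  refine ⟨l1, ?_, ?_⟩
  · rw [Multiset.le_iff_count]
    intro x
    simp only [Multiset.insert_eq_cons, Multiset.count_cons, Multiset.count_singleton]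
    by_cases hx0 : x = l0
    · subst hx0
      rw [if_neg hne01, if_pos rfl]
      have := Multiset.count_pos.2 hl0
      omega
    · by_cases hx1 : x = l1
      · subst hx1
        rw [if_pos rfl, if_neg hx0]
        have := Multiset.count_pos.2 hl1
        omega
      · rw [if_neg hx1, if_neg hx0]
        exact Nat.zero_le _
  · rcases huo l0 hl0o with ⟨h1, h2⟩ | ⟨h1, h2⟩ <;> rcases huo l1 hl1o with ⟨h3, h4⟩ | ⟨h3, h4⟩
    · exfalso
      simp only [s, if_pos h1, if_pos h3] at hsgn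
      norm_num at hsgn
    · exact dual_of p a θ hirr γ γ' hadd hmul hB hi habs (r l0) (hr0 l0 hl0o) (hr l0 hl0o) l0 l1 h1
        (by rw [h4, hrr]) hiff
    · obtain ⟨k, hk, h5⟩ := dual_of p a θ hirr γ γ' hadd hmul hB hi habs (r l0) (hr0 l0 hl0o)
        (hr l0 hl0o) l1 l0 (by rw [h3, hrr]) h2 (fun g hg => (hiff g hg).symm)
      exact ⟨k, hk, by rw [mul_comm]; exact h5⟩
    · exfalso
      simp only [s, if_neg (hrne _ hl0o _ h1), if_neg (hrne _ hl1o _ h3)] at hsgn
      norm_num at hsgn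

end

end Pool.Agent.H856.PR
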