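import Pool.Graph.R_pool_sql_team_seeded_2aa45f1a.Q64.L.Iff
import Pool.Graph.R_pool_sql_team_seeded_2aa45f1a.Q64.CT.Thms

/-! # Families without relations are good (after helper857) -/

set_option autoImplicit false

namespace Pool.Agent.H856.PR

open Polynomial Pool.Agent.Q64.L Pool.Agent.Y1.CT

/-- The complex roots of the polynomial have the property `R`. -/
def RootsIn (R : ℂ → Prop) (χ : ℚ[X]) : Prop := ∀ ρ : ℂ, aeval ρ χ = 0 → R ρ

theorem good_of_noRel {I : Type} {q : ℕ} {F : I → ℤ[X]} {R : ℂ → Prop} (hR : NoRel F q R)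
    (h0 : ¬ R 0) : Good (RootsIn R) q F where
  monic := hR.monic
  one := fun ρ hρ => by
    rw [map_sub, aeval_X, map_one, sub_eq_zero] at hρ
    rw [hρ]
    exact hR.one
  coeff := fun χ h hc => by
    refine h0 (h 0 ?_)
    rw [aeval_def, eval₂_at_zero, hc, map_zero]
  pair := fun L _ _ s hs χ hχ hrank ρ hρ =>
    exactPair_field F hR.monic q s χ hχ (fun ρ hρ => hR.pair s hs ρ (hrank ρ hρ)) ρ hρ

end Pool.Agent.H856.PR
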