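import Pool.Agent.H856.PR.Stm
import Pool.Agent.H856.KA.Ext
import Pool.Agent.H856.KA.Kla
import Pool.Agent.H856.KA.Klb

/-! # KLO: the two numbers whose power sums are the Kloosterman sums over the extensions of `F` -/

set_option autoImplicit false
set_option linter.unusedSectionVars false

open Polynomial NumberField

namespace Pool.Agent.H856.PR

namespace KLO

open Pool.Agent.H856.KA Pool.Agent.H341R2.Sharp Pool.Agent.H498R2.Kl

theorem char_ne_one (p : ℕ) [hp : Fact p.Prime] (F : Type) [Field F] [Finite F]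
    [Algebra (ZMod p) F] (z : ℂ) (hz : IsPrimitiveRoot z p) :
    klaChar p F z hz.pow_eq_one ≠ 1 := by
  intro h
  have : Module.Finite (ZMod p) F := Module.Finite.of_finite
  obtain ⟨x, hx⟩ := Algebra.trace_surjective (ZMod p) F 1
  have h3 : klaChar p F z hz.pow_eq_one x = 1 := by rw [h]; rfl
  rw [klaChar_apply, hx] at h3
  have : Fact (1 < p) := ⟨hp.out.one_lt⟩
  rw [ZMod.val_one, pow_one] at h3
  exact hz.ne_one hp.out.one_lt h3

/-- the Kloosterman sum over an extension as a sum over polynomials -/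
theorem klo_eq_TG (p : ℕ) [Fact p.Prime] (F : Type) [Field F] [Fintype F] [DecidableEq F]
    [Algebra (ZMod p) F] (z : ℂ) (hz : IsPrimitiveRoot z p) (b : F)
    (L : Type) [Field L] [Finite L] [Algebra F L] [Algebra (ZMod p) L]
    [IsScalarTower (ZMod p) F L] :
    klo p z L (algebraMap F L b) =
      TG (lamK (klaChar p F z hz.pow_eq_one) b 1) (Module.finrank F L) := by
  classical
  let _ : Fintype L := Fintype.ofFinite L
  have : Module.Finite F L := Module.Finite.of_finite
  have : Module.Finite (ZMod p) F := Module.Finite.of_finite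
  rw [TK_eq_sum (F := F) (E := L), klo, finsum_eq_sum_of_fintype]
  have h1 : ∀ y : L, z ^ (Algebra.trace (ZMod p) L y).val =
      klaChar p F z hz.pow_eq_one (Algebra.trace F L y) := by
    intro y
    rw [klaChar_apply, Algebra.trace_trace]
  simp_rw [h1]
  rw [map_one]
  have h2 : ∀ x : L, (if x = 0 then (0 : ℂ) else klaChar p F z hz.pow_eq_one
      (Algebra.trace F L (algebraMap F L b * x + 1 * x⁻¹))) =
      if x ≠ 0 then klaChar p F z hz.pow_eq_one (Algebra.trace F L
      (algebraMap F L b * x + 1 * x⁻¹)) else 0 := by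
    intro x
    by_cases h0 : x = 0 <;> simp [h0]
  simp_rw [h2]
  rw [← Finset.sum_filter]
  refine Finset.sum_bij (fun (x : Lˣ) _ => (x : L)) ?_ ?_ ?_ ?_
  · intro x _
    rw [Finset.mem_filter]
    exact ⟨Finset.mem_univ _, x.ne_zero⟩
  · intro x _ y _ hxy
    exact Units.ext hxy
  · intro x hx
    rw [Finset.mem_filter] at hx
    exact ⟨Units.mk0 x hx.2, Finset.mem_univ _, rfl⟩
  · intro x _
    rw [one_mul, Units.val_inv_eq_inv_val]

/-- complex numbers `α`, `β` with given sum and product -/
theorem exists_roots (s t : ℂ) : ∃ α β : ℂ, α + β = s ∧ α * β = t := by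
  obtain ⟨w, hw⟩ := IsAlgClosed.exists_pow_nat_eq (s ^ 2 - 4 * t) two_pos
  refine ⟨(s + w) / 2, (s - w) / 2, by ring, ?_⟩
  linear_combination (-1 / 4 : ℂ) * hw

theorem norm_of (k : ℝ) (q : ℝ) (hk : k ^ 2 ≤ 4 * q) (u v : ℂ)
    (hs : u + v = -(k : ℂ)) (hp : u * v = (q : ℂ)) : ‖u‖ ^ 2 = q := by
  have hv : v = -(k : ℂ) - u := by linear_combination hs
  have h1 := congrArg Complex.re hp
  have h2 := congrArg Complex.im hp
  rw [hv] at h1 h2
  simp only [Complex.mul_re, Complex.mul_im, Complex.sub_re, Complex.sub_im, Complex.neg_re,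
    Complex.neg_im, Complex.ofReal_re, Complex.ofReal_im] at h1 h2
  rw [← Complex.normSq_eq_norm_sq, Complex.normSq_apply]
  have h3 : u.im * (2 * u.re + k) = 0 := by linear_combination -h2
  have h4 : 2 * u.re + k = 0 := by
    rcases mul_eq_zero.1 h3 with h | h
    · rw [h] at h1
      have h5 : (2 * u.re + k) ^ 2 = k ^ 2 - 4 * q := by linear_combination -4 * h1
      have h6 : (2 * u.re + k) ^ 2 = 0 := le_antisymm (by linarith) (sq_nonneg _)
      exact pow_eq_zero_iff two_ne_zero |>.1 h6
    · exact h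
  have h5 : k = -2 * u.re := by linarith
  rw [h5] at h1
  linear_combination h1

end KLO

open KLO Pool.Agent.H856.KA Pool.Agent.H341R2.Sharp Pool.Agent.H498R2.Kl in
theorem klo2 : S_KLO := by
  intro p hp F _ _ _ b z hb hz u v h
  classical
  let _ : Fintype F := Fintype.ofFinite F
  have hchar : CharP F p := charP_of_injective_algebraMap (algebraMap (ZMod p) F).injective p
  have hψ := char_ne_one p F z hz
  obtain ⟨α, β, h1, h2⟩ := exists_roots (-AG (lamK (klaChar p F z hz.pow_eq_one) b 1) 1)
    (Fintype.card F : ℂ)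
  have h3 := TG_eigen hψ hb one_ne_zero α β h1 h2
  -- the field itself
  have h4 := h F
  rw [klo_eq_TG p F z hz b F, Module.finrank_self, h3 1 one_pos, pow_one, pow_one, pow_one,
    pow_one] at h4
  -- the quadratic extension
  have h5 := h (FiniteField.Extension F p 2)
  rw [klo_eq_TG p F z hz b (FiniteField.Extension F p 2), FiniteField.finrank_extension F p 2,
    h3 2 two_pos] at h5
  have h6 : u + v = α + β := by linear_combination h4
  have h7 : u ^ 2 + v ^ 2 = α ^ 2 + β ^ 2 := by linear_combination h5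
  have h8 : u * v = (Nat.card F : ℂ) := by
    rw [Nat.card_eq_fintype_card, ← h2]
    linear_combination (1 / 2 : ℂ) * (u + v + α + β) * h6 - (1 / 2 : ℂ) * h7
  have h9 : u + v = -klo p z F b := by
    have h10 := h F
    rw [Module.finrank_self, pow_one, pow_one] at h10
    have h11 : algebraMap F F b = b := rfl
    rw [h11] at h10
    rw [h10, neg_neg]
  -- the bound
  have hbd : (klo p z F b).im = 0 ∧ ‖klo p z F b‖ ≤ 2 * Real.sqrt (Nat.card F) := by
    by_cases hp2 : p = 2
    · subst hp2
      have hz' : z = -1 := hz.eq_neg_one_of_two_right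
      subst hz'
      refine ⟨?_, klb F b hb⟩
      have h1 : klo 2 (-1 : ℂ) F b = ((klo 2 (-1 : ℤ) F b : ℤ) : ℂ) := by
        unfold klo
        rw [finsum_eq_sum_of_fintype, finsum_eq_sum_of_fintype]
        push_cast
        rfl
      rw [h1]
      exact Complex.intCast_im _
    · exact kla p F b z hb hz (fun h => absurd h hp2)
  obtain ⟨hb1, hb2⟩ := hbd
  have hre : klo p z F b = ((klo p z F b).re : ℂ) :=
    Complex.ext rfl (by rw [hb1, Complex.ofReal_im])
  have hq0 : (0 : ℝ) ≤ Nat.card F := Nat.cast_nonneg _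
  have hk : (klo p z F b).re ^ 2 ≤ 4 * (Nat.card F : ℝ) := by
    have h12 : |(klo p z F b).re| ≤ 2 * Real.sqrt (Nat.card F) :=
      (Complex.abs_re_le_norm _).trans hb2
    have h13 := mul_self_le_mul_self (abs_nonneg _) h12
    rw [abs_mul_abs_self] at h13
    have h14 := Real.mul_self_sqrt hq0
    nlinarith
  rw [hre] at h9
  have h8' : u * v = (((Nat.card F : ℝ)) : ℂ) := by
    rw [h8]
    simp
  refine ⟨h8, norm_of _ _ hk u v h9 h8', norm_of _ _ hk v u ?_ ?_, ?_⟩
  · rw [add_comm]
    exact h9
  · rw [mul_comm]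
    exact h8'
  · rw [h9, ← hre]

end Pool.Agent.H856.PR
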