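import Pool.Agent.H856.PR.Stm

/-! # One place above `p` in the field of the `p`-th roots of unity -/

set_option autoImplicit false

open Polynomial NumberField

namespace Pool.Agent.H856.PR

theorem one_aux (p : ℕ) [Fact p.Prime] : ∃ Q : Ideal (𝓞 (CyclotomicField p ℚ)),
    ∀ I : Ideal (𝓞 (CyclotomicField p ℚ)), I.IsPrime → (p : 𝓞 (CyclotomicField p ℚ)) ∈ I → Q = I := by
  have hcyc : IsCyclotomicExtension {p} ℚ (CyclotomicField p ℚ) := CyclotomicField.isCyclotomicExtension p ℚ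
  have hζ := IsCyclotomicExtension.zeta_spec p ℚ (CyclotomicField p ℚ)
  refine ⟨Ideal.span {hζ.toInteger - 1}, fun I hI hp => ?_⟩
  have h1 := IsCyclotomicExtension.Rat.associated_zeta_sub_one_pow_prime p hζ
  have h2 : (hζ.toInteger - 1) ^ (p - 1) ∈ I := by
    obtain ⟨u, hu⟩ := h1.symm
    rw [← hu]
    exact I.mul_mem_right _ hp
  have h3 : hζ.toInteger - 1 ∈ I := hI.mem_of_pow_mem _ h2
  have h4 : Ideal.span {hζ.toInteger - 1} ≤ I := by
    rw [Ideal.span_singleton_le_iff_mem]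
    exact h3
  have h5 : (Ideal.span {hζ.toInteger - 1}).IsPrime :=
    IsCyclotomicExtension.Rat.isPrime_span_zeta_sub_one' p hζ
  have h6 : Ideal.span {hζ.toInteger - 1} ≠ ⊥ := by
    rw [Ne, Ideal.span_singleton_eq_bot]
    exact hζ.zeta_sub_one_prime'.ne_zero
  have h7 : (Ideal.span {hζ.toInteger - 1}).IsMaximal := h5.isMaximal h6
  exact h7.eq_of_le hI.ne_top h4

theorem one : S_ONE := by
  intro p _ I J hI hJ hpI hpJ
  obtain ⟨Q, hQ⟩ := one_aux p
  rw [← hQ I hI hpI, ← hQ J hJ hpJ]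

end Pool.Agent.H856.PR
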