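import Pool.Agent.H856.PR.Crit
import Pool.Agent.H856.PR.Klo
import Pool.Agent.H856.PR.One
import Pool.Agent.H856.PR.Cnj
import Pool.Agent.H856.PR.Sig
import Pool.Agent.H856.PR.Sq
import Pool.Agent.H856.PR.Exo
import Pool.Agent.H856.KA.Fam
import Pool.Agent.H856.KA.Klc

/-! # Products of Kloosterman curves -/

set_option autoImplicit false

open Polynomial NumberField

namespace Pool.Agent.H856.PR

open Pool.Agent.H856.WD Pool.Agent.H856.WE

/-- the `p`-th root of unity in `CyclotomicField p ℚ` -/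
noncomputable def zt (p : ℕ) [hp : Fact p.Prime] : CyclotomicField p ℚ :=
  haveI : NeZero p := ⟨hp.out.ne_zero⟩
  haveI : NeZero ((p : ℕ) : ℚ) := ⟨by exact_mod_cast hp.out.ne_zero⟩
  haveI : IsCyclotomicExtension {p} ℚ (CyclotomicField p ℚ) :=
    CyclotomicField.isCyclotomicExtension p ℚ
  IsCyclotomicExtension.zeta p ℚ (CyclotomicField p ℚ)

lemma zt_prim (p : ℕ) [hp : Fact p.Prime] : IsPrimitiveRoot (zt p) p := by
  have : NeZero p := ⟨hp.out.ne_zero⟩
  have : NeZero ((p : ℕ) : ℚ) := ⟨by exact_mod_cast hp.out.ne_zero⟩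
  have : IsCyclotomicExtension {p} ℚ (CyclotomicField p ℚ) :=
    CyclotomicField.isCyclotomicExtension p ℚ
  exact IsCyclotomicExtension.zeta_spec p ℚ (CyclotomicField p ℚ)

lemma quad {R : Type} [CommRing R] [Nontrivial R] (b c : R) :
    (X ^ 2 + C b * X + C c : R[X]).Monic ∧ (X ^ 2 + C b * X + C c : R[X]).natDegree = 2 ∧
    (X ^ 2 + C b * X + C c : R[X]).coeff 1 = b ∧ (X ^ 2 + C b * X + C c : R[X]).coeff 0 = c := by
  refine ⟨by monicity!, by compute_degree!, ?_, ?_⟩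
  · simp [coeff_C]
  · simp

/-- `Γ` consists of the eigenvalues of the Frobenius of the Jacobians of the curves
`y ^ p - y = b i * x + 1 / x` over the finite field `F`: for every `i` and every embedding `φ` of
`ℚ (ζ_p)`, that is, for every nontrivial character of `ZMod p`, the Kloosterman sums over all finite
extensions of `F` are, up to the sign, the sums of the powers of the two numbers `Γ ((i, φ), k)` -/
def KloSpectrum (p : ℕ) [Fact p.Prime] (F : Type) [Field F] [Algebra (ZMod p) F] {I : Type}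
    (b : I → F) (Γ : (I × (CyclotomicField p ℚ →+* ℂ)) × Fin 2 → ℂ) : Prop :=
  ∀ (i : I) (φ : CyclotomicField p ℚ →+* ℂ) (L : Type) [Field L] [Finite L] [Algebra F L]
    [Algebra (ZMod p) L] [IsScalarTower (ZMod p) F L],
    KA.klo p (φ (zt p)) L (algebraMap F L (b i)) =
      -(Γ ((i, φ), 0) ^ Module.finrank F L + Γ ((i, φ), 1) ^ Module.finrank F L)

open AvProof in
theorem kloprod (p a : ℕ) [hp : Fact p.Prime] (F : Type) [Field F] [Finite F] [Algebra (ZMod p) F]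
    (hF : Nat.card F = p ^ a) (ha : 0 < a) (I : Type) [Fintype I] (b : I → F) (hb : ∀ i, b i ≠ 0)
    (Γ : (I × (CyclotomicField p ℚ →+* ℂ)) × Fin 2 → ℂ) (hΓ : KloSpectrum p F b Γ) :
    DetRel ((p : ℂ) ^ a) Γ ∧ CaseA ((p : ℂ) ^ a) Γ := by
  classical
  have : NeZero p := ⟨hp.out.ne_zero⟩
  have : NeZero ((p : ℕ) : ℚ) := ⟨by exact_mod_cast hp.out.ne_zero⟩
  have hcyc : IsCyclotomicExtension {p} ℚ (CyclotomicField p ℚ) :=
    CyclotomicField.isCyclotomicExtension p ℚ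
  have : IsGalois ℚ (CyclotomicField p ℚ) := IsCyclotomicExtension.isGalois {p} ℚ _
  obtain ⟨c, hc⟩ := cnj p
  obtain ⟨Q0, hQ0⟩ : ∃ Q0 : CyclotomicField p ℚ, Q0 = (p : CyclotomicField p ℚ) ^ a := ⟨_, rfl⟩
  obtain ⟨k0, hk0⟩ : ∃ k0 : I → CyclotomicField p ℚ, ∀ i, k0 i = KA.klo p (zt p) F (b i) :=
    ⟨_, fun _ => rfl⟩
  let P : I → (CyclotomicField p ℚ)[X] := fun i => X ^ 2 + C (k0 i) * X + C Q0
  have hPm : ∀ i, (P i).Monic := fun i => (quad (k0 i) Q0).1
  have hPd : ∀ i, (P i).natDegree = 2 := fun i => (quad (k0 i) Q0).2.1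
  have hc1 : ∀ i, (P i).coeff 1 = KA.klo p (zt p) F (b i) := fun i => by
    rw [← hk0]
    exact (quad (k0 i) Q0).2.2.1
  have hc0 : ∀ i, (P i).coeff 0 = Q0 := fun i => (quad (k0 i) Q0).2.2.2
  have hkint : ∀ i, IsIntegral ℤ (KA.klo p (zt p) F (b i)) := by
    intro i
    have := Fintype.ofFinite Fˣ
    rw [KA.klo_eq]
    exact IsIntegral.sum _ fun x _ => ((zt_prim p).isIntegral hp.out.pos).pow _
  have hPi : ∀ i n, IsIntegral ℤ ((P i).coeff n) := by
    intro i n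
    rcases Nat.lt_or_ge 2 n with hn | hn
    · rw [coeff_eq_zero_of_natDegree_lt (by rw [hPd]; exact hn)]
      exact isIntegral_zero
    · interval_cases n
      · have h1 : Q0 = algebraMap ℤ (CyclotomicField p ℚ) ((p : ℤ) ^ a) := by
          rw [hQ0, map_pow]
          simp
        rw [hc0, h1]
        exact isIntegral_algebraMap
      · rw [hc1]
        exact hkint i
      · have h1 : (P i).coeff 2 = 1 := by
          have := (hPm i).coeff_natDegree
          rwa [hPd] at this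
        rw [h1]
        exact isIntegral_one
  have hcardC : ((Nat.card F : ℕ) : ℂ) = (p : ℂ) ^ a := by rw [hF]; push_cast; rfl
  have hcardR : ((Nat.card F : ℕ) : ℝ) = (p : ℝ) ^ a := by rw [hF]; push_cast; rfl
  have hk : ∀ i φ, Γ ((i, φ), 0) * Γ ((i, φ), 1) = (p : ℂ) ^ a ∧
      ‖Γ ((i, φ), 0)‖ ^ 2 = (p : ℝ) ^ a ∧ ‖Γ ((i, φ), 1)‖ ^ 2 = (p : ℝ) ^ a ∧
      Γ ((i, φ), 0) + Γ ((i, φ), 1) = -KA.klo p (φ (zt p)) F (b i) := by
    intro i φ
    rw [← hcardC, ← hcardR]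
    exact klo2 p F (b i) (φ (zt p)) (hb i) ((zt_prim p).map_of_injective φ.injective) _ _
      (fun L => hΓ i φ L)
  have hfac : ∀ i (φ : CyclotomicField p ℚ →+* ℂ), (P i).map φ = ∏ k, (X - C (Γ ((i, φ), k))) := by
    intro i φ
    obtain ⟨h1, -, -, h2⟩ := hk i φ
    rw [Fin.prod_univ_two]
    have e1 : ((X - C (Γ ((i, φ), 0))) * (X - C (Γ ((i, φ), 1))) : ℂ[X]) =
        X ^ 2 - C (Γ ((i, φ), 0) + Γ ((i, φ), 1)) * X + C (Γ ((i, φ), 0) * Γ ((i, φ), 1)) := by
      rw [C_add, C_mul]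
      ring
    rw [e1, h1, h2]
    have e2 : φ Q0 = (p : ℂ) ^ a := by rw [hQ0, map_pow, map_natCast]
    have e3 : φ (k0 i) = KA.klo p (φ (zt p)) F (b i) := by rw [hk0, KA.klo_map]
    simp only [P, Polynomial.map_add, Polynomial.map_mul, Polynomial.map_pow, map_X, map_C, e2, e3,
      C_neg]
    ring
  have hab : ∀ x, ‖Γ x‖ ^ 2 = (p : ℝ) ^ a := by
    rintro ⟨⟨i, φ⟩, k⟩
    obtain ⟨-, h1, h2, -⟩ := hk i φ
    fin_cases k
    · exact h1
    · exact h2
  obtain ⟨h1, h2, -⟩ := crit sig sq exo p a ha (CyclotomicField p ℚ) c hc (one p) I P hPm hPd hPi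
    Γ hfac hab
  refine ⟨h1, h2 ?_⟩
  -- the heights are zero
  obtain ⟨w0, hw0⟩ := Field.exists_primitive_element ℚ (CyclotomicField p ℚ)
  obtain ⟨f⟩ : Nonempty (CyclotomicField p ℚ →ₐ[ℚ] AlgebraicClosure ℚ) := ⟨IsAlgClosed.lift⟩
  have hirr : Irreducible ((minpoly ℚ (f.toRingHom w0)).map (algebraMap ℚ ℚ_[p])) := by
    have h3 : minpoly ℚ (f.toRingHom w0) = minpoly ℚ w0 := minpoly.algHom_eq f f.injective w0
    rw [h3]
    exact spl p (CyclotomicField p ℚ) w0 hw0 (one p)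
  have hd0 : Module.finrank ℚ (CyclotomicField p ℚ) ≠ 0 := Module.finrank_pos.ne'
  obtain ⟨vadd, vint, vp, vl, vz⟩ := KA.val p
  have hp1 : (1 : ℝ) < p := by exact_mod_cast hp.out.one_lt
  have hht : ∀ i, NotSS p a (P i) → ht p (P i) = 0 := by
    intro i hi
    have h3 := abs_of_norm p (CyclotomicField p ℚ) w0 hw0 f.toRingHom hirr _ hi.1
    have h4 := KA.klc KA.val p F (b i) (f.toRingHom (zt p)) (hb i)
      ((zt_prim p).map_of_injective f.toRingHom.injective)
    rw [← KA.klo_map] at h4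
    rw [hc1] at h3
    have h5 : ‖iota p (f.toRingHom (KA.klo p (zt p) F (b i)))‖ = 1 := by
      apply le_antisymm
      · exact vint _ ((hkint i).map f.toRingHom.toIntAlgHom)
      · by_contra hlt
        rw [not_le] at hlt
        have h6 := vadd (f.toRingHom (KA.klo p (zt p) F (b i)) + 1)
          (-f.toRingHom (KA.klo p (zt p) F (b i)))
        rw [show f.toRingHom (KA.klo p (zt p) F (b i)) + 1 +
          -f.toRingHom (KA.klo p (zt p) F (b i)) = 1 by ring, map_one, norm_one, map_neg,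
          norm_neg] at h6
        exact absurd h6 (not_le.2 (max_lt h4 hlt))
    rw [h5, one_pow] at h3
    have h7 : (p : ℝ) ^ (-ht p (P i)) = (p : ℝ) ^ (0 : ℤ) := by
      rw [ht, hc1, ← h3, zpow_zero]
    have h8 := (zpow_right_strictMono₀ hp1).injective h7
    linarith
  intro i1 i2 σ hi1 hi2 _
  rw [hht i1 hi1, hht i2 hi2]

open KLO Pool.Agent.H341R2.Sharp Pool.Agent.H498R2.Kl in
/-- the eigenvalues exist -/
theorem exists_spectrum (p : ℕ) [hp : Fact p.Prime] (F : Type) [Field F] [Finite F]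
    [Algebra (ZMod p) F] (I : Type) (b : I → F) (hb : ∀ i, b i ≠ 0) :
    ∃ Γ : (I × (CyclotomicField p ℚ →+* ℂ)) × Fin 2 → ℂ, KloSpectrum p F b Γ := by
  classical
  let _ : Fintype F := Fintype.ofFinite F
  have hz : ∀ φ : CyclotomicField p ℚ →+* ℂ, IsPrimitiveRoot (φ (zt p)) p := fun φ =>
    (zt_prim p).map_of_injective φ.injective
  have h1 : ∀ t : I × (CyclotomicField p ℚ →+* ℂ), ∃ y : Fin 2 → ℂ, ∀ m : ℕ, 0 < m →
      TG (lamK (KA.klaChar p F (t.2 (zt p)) (hz t.2).pow_eq_one) (b t.1) 1) m =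
        -(y 0 ^ m + y 1 ^ m) := by
    intro t
    obtain ⟨α, β, h1, h2⟩ := exists_roots
      (-AG (lamK (KA.klaChar p F (t.2 (zt p)) (hz t.2).pow_eq_one) (b t.1) 1) 1)
      (Fintype.card F : ℂ)
    exact ⟨![α, β], fun m hm => KA.TG_eigen (char_ne_one p F _ (hz t.2)) (hb t.1) one_ne_zero
      α β h1 h2 m hm⟩
  choose y hy using h1
  refine ⟨fun x => y x.1 x.2, ?_⟩
  intro i φ L _ _ _ _ _
  have : Module.Finite F L := Module.Finite.of_finite
  rw [klo_eq_TG p F _ (hz φ) (b i) L]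
  exact hy (i, φ) _ Module.finrank_pos

end Pool.Agent.H856.PR
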