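import Pool.Agent.H856.PR.Pr
import Pool.Agent.H856.WE.AvProof
import Pool.Agent.H856.WE.SplProof
import Pool.Agent.H856.WE.Glu2Proof
import Pool.Agent.H856.WE.Div
import Pool.Agent.H856.WD.ActProof
import Pool.Agent.H856.WD.Clo

/-! # Products of abelian varieties with multiplication by one field -/

set_option autoImplicit false

open Polynomial NumberField

namespace Pool.Agent.H856.PR

open Pool.Agent.H856.WD Pool.Agent.H856.WE

lemma norm_of_val_eq (p : ℕ) [hp : Fact p.Prime] {x y : AlgebraicClosure ℚ} (hx : x ≠ 0)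
    (hy : y ≠ 0) (h : val p x = val p y) : ‖iota p x‖ = ‖iota p y‖ := by
  rw [val, val, neg_inj] at h
  exact Real.log_injOn_pos (lt_of_le_of_ne (norm_nonneg _) (norm_ne p hx).symm)
    (lt_of_le_of_ne (norm_nonneg _) (norm_ne p hy).symm) h

lemma norm_rat (p : ℕ) [hp : Fact p.Prime] (x : ℚ) (hx : x ≠ 0) :
    ‖iota p (algebraMap ℚ (AlgebraicClosure ℚ) x)‖ = (p : ℝ) ^ (-padicValRat p x) := by
  rw [AlgHom.commutes, IsScalarTower.algebraMap_apply ℚ ℚ_[p] (PadicAlgCl p)]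
  have h1 : ‖algebraMap ℚ_[p] (PadicAlgCl p) (algebraMap ℚ ℚ_[p] x)‖ = ‖algebraMap ℚ ℚ_[p] x‖ :=
    PadicAlgCl.norm_extends p _
  rw [h1, eq_ratCast, Padic.eq_padicNorm, padicNorm.eq_zpow_of_nonzero hx]
  push_cast
  rfl

/-- the absolute value of the conjugates of a number in a field with one place above `p` -/
lemma abs_of_norm (p : ℕ) [hp : Fact p.Prime] (E : Type) [Field E] [NumberField E] (w0 : E)
    (hw0 : IntermediateField.adjoin ℚ {w0} = ⊤) (f : E →+* AlgebraicClosure ℚ)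
    (hirr : Irreducible ((minpoly ℚ (f w0)).map (algebraMap ℚ ℚ_[p]))) (y : E) (hy : y ≠ 0) :
    ‖iota p (f y)‖ ^ Module.finrank ℚ E = (p : ℝ) ^ (-padicValRat p (Algebra.norm ℚ y)) := by
  classical
  have h1 := Algebra.norm_eq_prod_embeddings ℚ (AlgebraicClosure ℚ) y
  have h2 : ‖iota p (algebraMap ℚ (AlgebraicClosure ℚ) (Algebra.norm ℚ y))‖ =
      ‖iota p (∏ σ : E →ₐ[ℚ] AlgebraicClosure ℚ, σ y)‖ := by rw [← h1]
  rw [norm_rat p _ (Algebra.norm_ne_zero_iff.2 hy), map_prod, norm_prod] at h2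
  rw [h2]
  have h3 : ∀ σ : E →ₐ[ℚ] AlgebraicClosure ℚ, ‖iota p (σ y)‖ = ‖iota p (f y)‖ := by
    intro σ
    have h4 : aeval (σ w0) (minpoly ℚ (f w0)) = 0 := by
      have e1 : minpoly ℚ (f w0) = minpoly ℚ w0 :=
        minpoly.algHom_eq f.toRatAlgHom f.injective w0
      rw [e1, aeval_algHom_apply, minpoly.aeval, map_zero]
    obtain ⟨d, hd, hv⟩ := Pla2.exists_d2 p hirr h4
    have h5 : (d : AlgebraicClosure ℚ →+* AlgebraicClosure ℚ).comp f = (σ : E →+* AlgebraicClosure ℚ) :=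
      AvProof.hom_ext hw0 _ _ hd
    have h6 : d (f y) = σ y := RingHom.congr_fun h5 y
    rw [← h6]
    refine norm_of_val_eq p ?_ ?_ (hv _)
    · exact (map_ne_zero d).2 ((map_ne_zero f).2 hy)
    · exact (map_ne_zero f).2 hy
  rw [Finset.prod_congr rfl (fun σ _ => h3 σ), Finset.prod_const, Finset.card_univ,
    AlgHom.card ℚ E (AlgebraicClosure ℚ)]

/-- the supersingular case -/
lemma ss_case (p a : ℕ) [hp : Fact p.Prime] (θ : AlgebraicClosure ℚ)
    (hirr : Irreducible ((minpoly ℚ θ).map (algebraMap ℚ ℚ_[p]))) (x y : AlgebraicClosure ℚ)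
    (hadd : ∀ (g : AlgebraicClosure ℚ ≃+* AlgebraicClosure ℚ), g θ = θ → g (x + y) = x + y)
    (hmul : ∀ (g : AlgebraicClosure ℚ ≃+* AlgebraicClosure ℚ), g θ = θ → g (x * y) = x * y)
    (hB : ∃ m : ℕ, 0 < m ∧ (x * y) ^ m = ((p : AlgebraicClosure ℚ) ^ a) ^ m)
    (hi : IsIntegral ℤ x)
    (habs : ∀ (φ : AlgebraicClosure ℚ →+* ℂ), ‖φ x‖ ^ 2 = (p : ℝ) ^ a)
    (hle : ‖iota p (x + y)‖ ^ 2 ≤ ‖iota p (p : AlgebraicClosure ℚ)‖ ^ a) :
    ∃ m : ℕ, 0 < m ∧ x ^ (2 * m) = ((p : AlgebraicClosure ℚ) ^ a) ^ m := by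
  obtain ⟨vadd, vint, vp, vl, vz⟩ := KA.val p
  have hp0 : (p : AlgebraicClosure ℚ) ≠ 0 := by exact_mod_cast hp.out.ne_zero
  have hB1 : ∀ l : Unit, ∃ m : ℕ, 0 < m ∧ ((fun _ : Unit => x) l * (fun _ : Unit => y) l) ^ m =
    ((p : AlgebraicClosure ℚ) ^ a) ^ m := fun _ => hB
  have h1 : ‖iota p x‖ * ‖iota p y‖ = ‖iota p (p : AlgebraicClosure ℚ)‖ ^ a :=
    Bnorm p a (fun _ : Unit => x) (fun _ => y) hB1 ()
  obtain ⟨hx0, hy0⟩ : x ≠ 0 ∧ y ≠ 0 := ne0 p a (fun _ : Unit => x) (fun _ => y) hB1 ()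
  set c : ℝ := ‖iota p (p : AlgebraicClosure ℚ)‖ ^ a with hc
  have hneg : ∀ x, ‖iota p (-x)‖ = ‖iota p x‖ := by
    intro x
    rw [map_neg, norm_neg]
  have hxp : 0 < ‖iota p x‖ := lt_of_le_of_ne (norm_nonneg _) (norm_ne p hx0).symm
  have hyp : 0 < ‖iota p y‖ := lt_of_le_of_ne (norm_nonneg _) (norm_ne p hy0).symm
  have hxy : ‖iota p x‖ = ‖iota p y‖ := by
    rcases lt_trichotomy ‖iota p x‖ ‖iota p y‖ with h2 | h2 | h2
    · exfalso
      have h3 := vadd (x + y) (-x)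
      rw [hneg, show x + y + -x = y by ring] at h3
      rcases le_max_iff.1 h3 with h6 | h6
      · have h7 : ‖iota p y‖ ^ 2 ≤ c := (pow_le_pow_left₀ hyp.le h6 2).trans hle
        nlinarith
      · exact absurd (lt_of_le_of_lt h6 h2) (lt_irrefl _)
    · exact h2
    · exfalso
      have h3 := vadd (x + y) (-y)
      rw [hneg, show x + y + -y = x by ring] at h3
      rcases le_max_iff.1 h3 with h6 | h6
      · have h7 : ‖iota p x‖ ^ 2 ≤ c := (pow_le_pow_left₀ hxp.le h6 2).trans hle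
        nlinarith
      · exact absurd (lt_of_le_of_lt h6 h2) (lt_irrefl _)
  have hc0 : c ≠ 0 := by
    rw [← h1]
    exact mul_ne_zero hxp.ne' hyp.ne'
  set z : AlgebraicClosure ℚ := x ^ 2 / (p : AlgebraicClosure ℚ) ^ a with hz
  have hz0 : z ≠ 0 := div_ne_zero (pow_ne_zero _ hx0) (pow_ne_zero _ hp0)
  have hval : ∀ g : AlgebraicClosure ℚ ≃+* AlgebraicClosure ℚ, g θ = θ → val p (g z) = 0 := by
    intro g hg
    have h3 : ‖iota p (g x)‖ ^ 2 = c := by
      rcases swap g (hadd g hg) (hmul g hg) with ⟨h4, -⟩ | ⟨h4, -⟩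
      · rw [h4, pow_two]
        nth_rewrite 2 [hxy]
        exact h1
      · rw [h4, pow_two]
        nth_rewrite 1 [← hxy]
        exact h1
    have h4 : ‖iota p (g z)‖ = 1 := by
      rw [hz, map_div₀, map_pow, map_pow, map_natCast, map_div₀, norm_div, map_pow, norm_pow, h3,
        map_pow, norm_pow, ← hc, div_self hc0]
    rw [val, h4, Real.log_one, neg_zero]
  have hphi : ∀ φ : AlgebraicClosure ℚ →+* ℂ, ‖φ z‖ = 1 := by
    intro φ
    rw [hz, map_div₀, map_pow, map_pow, map_natCast, norm_div, norm_pow, norm_pow, habs φ,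
      Complex.norm_natCast, div_self]
    exact pow_ne_zero _ (by exact_mod_cast hp.out.ne_zero)
  have hint : IsIntegral ℤ ((p : AlgebraicClosure ℚ) ^ a * z) := by
    have h3 : (p : AlgebraicClosure ℚ) ^ a * z = x ^ 2 := by
      rw [hz]
      field_simp
    rw [h3]
    exact hi.pow 2
  obtain ⟨m, hm, hzm⟩ := kron z (integral p z a hint (Pla2.conj_norm2 p hirr z hz0 hval)) hphi
  refine ⟨m, hm, ?_⟩
  rw [hz, div_pow, div_eq_one_iff_eq (pow_ne_zero _ (pow_ne_zero _ hp0)), ← pow_mul] at hzm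
  exact hzm

open AvProof in
theorem products (p a : ℕ) [hp : Fact p.Prime] (ha : 0 < a) (E : Type) [Field E] [NumberField E]
    [IsGalois ℚ E] (c : E →+* E)
    (hc : ∀ (φ : E →+* ℂ) (x : E), φ (c x) = (starRingEnd ℂ) (φ x))
    (hu : ∀ I J : Ideal (𝓞 E), I.IsPrime → J.IsPrime → (p : 𝓞 E) ∈ I → (p : 𝓞 E) ∈ J → I = J)
    (I : Type) [Fintype I] [DecidableEq I] (P : I → E[X]) (hPm : ∀ i, (P i).Monic)
    (hPd : ∀ i, (P i).natDegree = 2) (hPi : ∀ i n, IsIntegral ℤ ((P i).coeff n))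
    (Γ : (I × (E →+* ℂ)) × Fin 2 → ℂ)
    (hΓ : ∀ i (φ : E →+* ℂ), (P i).map φ = ∏ k, (X - C (Γ ((i, φ), k))))
    (hab : ∀ x, ‖Γ x‖ ^ 2 = (p : ℝ) ^ a)
    (h : ℤ) (hh : 2 * h < a * Module.finrank ℚ E)
    (hos : ∀ i, (P i).coeff 1 = 0 ∨ padicValRat p (Algebra.norm ℚ ((P i).coeff 1)) = h ∨
      (a * Module.finrank ℚ E : ℤ) ≤ 2 * padicValRat p (Algebra.norm ℚ ((P i).coeff 1))) :
    DetRel ((p : ℂ) ^ a) Γ ∧ CaseA ((p : ℂ) ^ a) Γ := by
  classical
  -- the determinants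
  have hdet : DetRel ((p : ℂ) ^ a) Γ := by
    rintro ⟨i, φ⟩
    obtain ⟨h1, -⟩ := av act_main pla2 glu2 spl p a 2 E c (P i) (fun x => Γ ((i, x.1), x.2)) ha
      one_le_two (by norm_num) hc hu (hPm i) (hPd i) (hPi i) (fun φ => hΓ i φ) (fun x => hab _)
    obtain ⟨m, hm, h2⟩ := h1 φ
    refine ⟨m, hm, ?_⟩
    rw [Multiset.map_map, Multiset.card_map] at h2 ⊢
    exact h2
  refine ⟨hdet, ?_⟩
  obtain ⟨j⟩ : Nonempty (AlgebraicClosure ℚ →+* ℂ) := by
    have : Algebra.IsAlgebraic ℚ (AlgebraicClosure ℚ) := AlgebraicClosure.isAlgebraic ℚ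
    exact ⟨(IsAlgClosed.lift : AlgebraicClosure ℚ →ₐ[ℚ] ℂ).toRingHom⟩
  obtain ⟨w0, hw0⟩ := Field.exists_primitive_element ℚ E
  have hwi : IsIntegral ℚ w0 := Algebra.IsIntegral.isIntegral w0
  choose L hL using fun t : E →+* ℂ => lift j t
  have hmin : ∀ f : E →+* AlgebraicClosure ℚ, minpoly ℚ (f w0) = minpoly ℚ w0 := by
    intro f
    exact minpoly.algHom_eq f.toRatAlgHom f.injective w0
  have hPne : ∀ i, P i ≠ 0 := fun i => (hPm i).ne_zero
  have hγ : ∀ x : (I × (E →+* ℂ)) × Fin 2, ∃ r : AlgebraicClosure ℚ,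
      ((P x.1.1).map (L x.1.2)).eval r = 0 ∧ j r = Γ x := by
    intro x
    apply exists_root j _ (IsAlgClosed.splits _) ((Polynomial.map_ne_zero (hPne _)))
    have e1 : j.comp (L x.1.2) = x.1.2 := by
      ext y; exact hL x.1.2 y
    rw [Polynomial.map_map, e1, hΓ x.1.1 x.1.2, eval_prod]
    apply Finset.prod_eq_zero (Finset.mem_univ x.2)
    simp
  choose γ hγ0 hγj using hγ
  have hfac : ∀ i φ, (P i).map (L φ) = (X - C (γ ((i, φ), 0))) * (X - C (γ ((i, φ), 1))) := by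
    intro i φ
    apply Polynomial.map_injective j j.injective
    have e1 : j.comp (L φ) = φ := by
      ext y; exact hL φ y
    rw [Polynomial.map_map, e1, hΓ i φ, Fin.prod_univ_two, Polynomial.map_mul, Polynomial.map_sub,
      Polynomial.map_sub, map_X, map_C, map_C, hγj, hγj]
  let γ' : (I × (E →+* ℂ)) × Fin 2 → AlgebraicClosure ℚ := fun x => γ (x.1, Fin.rev x.2)
  have hsum : ∀ x, γ x + γ' x = - (L x.1.2) ((P x.1.1).coeff 1) := by
    rintro ⟨⟨i, φ⟩, k⟩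
    have h1 := congrArg (fun Q => Polynomial.coeff Q 1) (hfac i φ)
    simp only [coeff_map] at h1
    have h2 : ((X - C (γ ((i, φ), 0))) * (X - C (γ ((i, φ), 1))) : (AlgebraicClosure ℚ)[X]) =
        X ^ 2 - C (γ ((i, φ), 0) + γ ((i, φ), 1)) * X + C (γ ((i, φ), 0) * γ ((i, φ), 1)) := by
      rw [C_add, C_mul]
      ring
    rw [h2] at h1
    simp [coeff_X, coeff_C] at h1
    show γ ((i, φ), k) + γ ((i, φ), Fin.rev k) = - (L φ) ((P i).coeff 1)
    rw [h1]
    fin_cases k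
    · show γ ((i, φ), 0) + γ ((i, φ), 1) = _
      ring
    · show γ ((i, φ), 1) + γ ((i, φ), 0) = _
      ring
  have hprod : ∀ x, γ x * γ' x = (L x.1.2) ((P x.1.1).coeff 0) := by
    rintro ⟨⟨i, φ⟩, k⟩
    have h1 := congrArg (fun Q => Polynomial.coeff Q 0) (hfac i φ)
    simp only [coeff_map] at h1
    have h2 : ((X - C (γ ((i, φ), 0))) * (X - C (γ ((i, φ), 1))) : (AlgebraicClosure ℚ)[X]) =
        X ^ 2 - C (γ ((i, φ), 0) + γ ((i, φ), 1)) * X + C (γ ((i, φ), 0) * γ ((i, φ), 1)) := by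
      rw [C_add, C_mul]
      ring
    rw [h2] at h1
    simp [coeff_C] at h1
    show γ ((i, φ), k) * γ ((i, φ), Fin.rev k) = (L φ) ((P i).coeff 0)
    rw [h1]
    fin_cases k
    · rfl
    · show γ ((i, φ), 1) * γ ((i, φ), 0) = _
      ring
  have hint : ∀ x, IsIntegral ℤ (γ x) := by
    intro x
    refine root_integral ((P x.1.1).map (L x.1.2)) ((hPm _).map _) ?_ (hγ0 x)
    intro n
    rw [coeff_map]
    exact (hPi _ n).map (L x.1.2).toIntAlgHom
  have habs : ∀ x (φ : AlgebraicClosure ℚ →+* ℂ), ‖φ (γ x)‖ ^ 2 = (p : ℝ) ^ a := by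
    rintro ⟨⟨i, t⟩, k⟩ φ
    have h1 : ((P i).map (φ.comp (L t))).eval (φ (γ ((i, t), k))) = 0 := by
      rw [← Polynomial.map_map, eval_map, eval₂_hom, hγ0 ((i, t), k), map_zero]
    rw [hΓ, eval_prod] at h1
    obtain ⟨k', _, hk⟩ := Finset.prod_eq_zero_iff.1 h1
    rw [eval_sub, eval_X, eval_C, sub_eq_zero] at hk
    rw [hk]
    exact hab _
  have hB : ∀ x, ∃ m : ℕ, 0 < m ∧ (γ x * γ' x) ^ m = ((p : AlgebraicClosure ℚ) ^ a) ^ m := by
    intro x
    obtain ⟨m', hm', h1⟩ := hdet x.1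
    refine ⟨2 * m', by omega, ?_⟩
    apply j.injective
    rw [Multiset.map_map, Multiset.card_map] at h1
    have h2 : (Multiset.map (Γ ∘ fun k => (x.1, k)) (Finset.univ : Finset (Fin 2)).val).prod =
        Γ (x.1, 0) * Γ (x.1, 1) := by
      have := Fin.prod_univ_two (fun k => Γ (x.1, k))
      exact this
    rw [h2] at h1
    have h3 : j (γ x * γ' x) = Γ (x.1, 0) * Γ (x.1, 1) := by
      rw [map_mul, hγj]
      show Γ x * j (γ (x.1, Fin.rev x.2)) = _
      rw [hγj]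
      obtain ⟨t, k⟩ := x
      fin_cases k
      · rfl
      · show Γ (t, 1) * Γ (t, 0) = _
        ring
    rw [map_pow, h3, h1, map_pow, map_pow, map_natCast]
    have h4 : (Finset.univ : Finset (Fin 2)).val.card = 2 := rfl
    rw [h4, mul_comm m' 2]
  have hirr : ∀ t : E →+* ℂ, Irreducible ((minpoly ℚ (L t w0)).map (algebraMap ℚ ℚ_[p])) := by
    intro t
    rw [hmin]
    exact spl p E w0 hw0 hu
  have hfixL : ∀ (t0 : E →+* ℂ) (g : AlgebraicClosure ℚ ≃+* AlgebraicClosure ℚ),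
      g (L t0 w0) = L t0 w0 → ∀ (t : E →+* ℂ) (y : E), g (L t y) = L t y := by
    intro t0 g hg t y
    have h1 : (g : AlgebraicClosure ℚ →+* AlgebraicClosure ℚ).comp (L t0) = L t0 :=
      hom_ext hw0 _ _ hg
    have h2 : (g : AlgebraicClosure ℚ →+* AlgebraicClosure ℚ).comp (L t) = L t := by
      refine hom_ext hw0 _ _ ?_
      have hsp : ((minpoly ℚ w0).map (algebraMap ℚ E)).Splits := Normal.splits inferInstance w0
      obtain ⟨r, _, hr⟩ := exists_root (L t0) _ hsp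
        ((Polynomial.map_ne_zero (minpoly.ne_zero hwi))) (L t w0) (by
          rw [Polynomial.map_map]
          have e1 : (L t0).comp (algebraMap ℚ E) = algebraMap ℚ (AlgebraicClosure ℚ) :=
            Subsingleton.elim _ _
          rw [e1, eval_map, ← aeval_def, ← hmin (L t), minpoly.aeval])
      change g (L t w0) = L t w0
      rw [← hr]
      exact RingHom.congr_fun h1 r
    exact RingHom.congr_fun h2 y
  -- absolute values
  have hp1 : (1 : ℝ) < p := by exact_mod_cast hp.out.one_lt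
  have hp0R : (0 : ℝ) < p := by linarith
  have hpn : ‖iota p (p : AlgebraicClosure ℚ)‖ = (p : ℝ)⁻¹ := by
    have h1 := norm_rat p (p : ℚ) (by exact_mod_cast hp.out.ne_zero)
    rw [map_natCast, padicValRat.self hp.out.one_lt, zpow_neg, zpow_one] at h1
    exact h1
  have hd0 : Module.finrank ℚ E ≠ 0 := Module.finrank_pos.ne'
  have hcpow : (‖iota p (p : AlgebraicClosure ℚ)‖ ^ a) ^ Module.finrank ℚ E =
      (p : ℝ) ^ (-(a * Module.finrank ℚ E : ℤ)) := by
    rw [hpn, ← pow_mul, inv_pow, zpow_neg]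
    congr 1
  set r : ℝ := (p : ℝ) ^ (-(h : ℝ) / Module.finrank ℚ E) with hrdef
  have hr0 : 0 < r := Real.rpow_pos_of_pos hp0R _
  have hrn : r ^ Module.finrank ℚ E = (p : ℝ) ^ (-h) := by
    rw [hrdef, ← Real.rpow_natCast, ← Real.rpow_mul hp0R.le, ← Real.rpow_intCast]
    congr 1
    have : (Module.finrank ℚ E : ℝ) ≠ 0 := by exact_mod_cast hd0
    push_cast
    field_simp
  have hr : ‖iota p (p : AlgebraicClosure ℚ)‖ ^ a < r ^ 2 := by
    apply (pow_lt_pow_iff_left₀ (by positivity) (by positivity) hd0).1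
    rw [hcpow, ← pow_mul, mul_comm 2, pow_mul, hrn, ← zpow_natCast, ← zpow_mul]
    apply zpow_lt_zpow_right₀ hp1
    push_cast
    linarith
  let ord : (I × (E →+* ℂ)) × Fin 2 → Prop := fun x => (P x.1.1).coeff 1 ≠ 0 ∧
    padicValRat p (Algebra.norm ℚ ((P x.1.1).coeff 1)) = h
  have hord : ∀ x, ord x → ‖iota p (γ x + γ' x)‖ = r := by
    intro x hx
    rw [hsum x, map_neg, norm_neg]
    have h1 := abs_of_norm p E w0 hw0 (L x.1.2) (hirr x.1.2) _ hx.1
    rw [hx.2, ← hrn] at h1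
    exact (pow_left_inj₀ (norm_nonneg _) hr0.le hd0).1 h1
  have hss : ∀ x, ¬ ord x → ∃ m : ℕ, 0 < m ∧ γ x ^ (2 * m) = ((p : AlgebraicClosure ℚ) ^ a) ^ m := by
    intro x hx
    refine ss_case p a (L x.1.2 w0) (hirr x.1.2) (γ x) (γ' x)
      (fun g hg => by rw [hsum x, map_neg, hfixL _ g hg])
      (fun g hg => by rw [hprod x, hfixL _ g hg]) (hB x) (hint x) (habs x) ?_
    rw [hsum x, map_neg, norm_neg]
    by_cases h0 : (P x.1.1).coeff 1 = 0
    · rw [h0, map_zero, map_zero, norm_zero]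
      have : (0 : ℝ) ≤ ‖iota p (p : AlgebraicClosure ℚ)‖ ^ a := by positivity
      simpa using this
    · rcases hos x.1.1 with h1 | h1 | h1
      · exact absurd h1 h0
      · exact absurd ⟨h0, h1⟩ hx
      · apply (pow_le_pow_iff_left₀ (by positivity) (by positivity) hd0).1
        rw [hcpow, ← pow_mul, mul_comm 2, pow_mul,
          abs_of_norm p E w0 hw0 (L x.1.2) (hirr x.1.2) _ h0, ← zpow_natCast, ← zpow_mul]
        apply zpow_le_zpow_right₀ hp1.le
        push_cast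
        linarith
  -- the words
  intro w hw hw2
  obtain ⟨m, hm, hw⟩ := hw
  by_cases hex : ∃ x ∈ w, ord x
  · obtain ⟨x0, hx0, hx0o⟩ := hex
    obtain ⟨x1, hx1, k, hk, hdual⟩ := pr p a (L x0.1.2 w0) (hirr _) γ γ' ord
      (fun x g hg => by rw [hsum x, map_neg, hfixL _ g hg])
      (fun x g hg => by rw [hprod x, hfixL _ g hg]) hB hint habs r hr0 hr hord hss
      w m hm (by
        apply j.injective
        rw [map_pow, map_pow, map_pow, map_natCast, map_multiset_prod, Multiset.map_map]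
        have e1 : (j ∘ γ) = Γ := funext hγj
        rw [e1]
        exact hw) x0 hx0 hx0o
    refine ⟨x0, x1, hx1, k, hk, ?_⟩
    have h1 := congrArg j hdual
    rw [map_pow, map_mul, hγj, hγj, map_pow, map_pow, map_natCast] at h1
    exact h1
  · push Not at hex
    obtain ⟨x, hx⟩ := Multiset.card_pos_iff_exists_mem.1 (by omega : 0 < w.card)
    obtain ⟨w', rfl⟩ := Multiset.exists_cons_of_mem hx
    rw [Multiset.card_cons] at hw2
    obtain ⟨y, hy⟩ := Multiset.card_pos_iff_exists_mem.1 (by omega : 0 < w'.card)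
    obtain ⟨w'', rfl⟩ := Multiset.exists_cons_of_mem hy
    refine ⟨x, y, ?_, ?_⟩
    · rw [Multiset.insert_eq_cons]
      exact Multiset.cons_le_cons _ (Multiset.singleton_le.2 (Multiset.mem_cons_self _ _))
    · have hssx : ∀ z ∈ x ::ₘ y ::ₘ w'', ∃ m : ℕ, 0 < m ∧ Γ z ^ (2 * m) = ((p : ℂ) ^ a) ^ m := by
        intro z hz
        obtain ⟨m, hm, h1⟩ := hss z (hex z hz)
        refine ⟨m, hm, ?_⟩
        have h2 := congrArg j h1
        rw [map_pow, hγj, map_pow, map_pow, map_natCast] at h2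
        exact h2
      obtain ⟨m1, hm1, h1⟩ := hssx x hx
      obtain ⟨m2, hm2, h2⟩ := hssx y (Multiset.mem_cons_of_mem hy)
      refine ⟨2 * m1 * m2, Nat.mul_pos (Nat.mul_pos two_pos hm1) hm2, ?_⟩
      have e1 : Γ x ^ (2 * m1 * m2) = ((p : ℂ) ^ a) ^ (m1 * m2) := by
        rw [pow_mul, h1, ← pow_mul]
      have e2 : Γ y ^ (2 * m1 * m2) = ((p : ℂ) ^ a) ^ (m1 * m2) := by
        rw [show 2 * m1 * m2 = 2 * m2 * m1 by ring, pow_mul, h2, ← pow_mul, mul_comm m2 m1]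
      rw [mul_pow, e1, e2, ← pow_add]
      congr 1
      ring

end Pool.Agent.H856.PR
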