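import Pool.Agent.H856.PR.Port
import Pool.Graph.R_pool_sql_team_seeded_843ab51a.V1168.EV.Defs

/-! # Families without relations: numbers which come from a finite set -/

set_option autoImplicit false

namespace Pool.Agent.H856.PR

open Polynomial Pool.Agent.Y1.CT Pool.Agent.V1168.EV

theorem noRel_mono {I : Type} {f : I → ℤ[X]} {q : ℕ} {R R' : ℂ → Prop} (h : NoRel f q R)
    (h1 : R' 1) (hR : ∀ ρ, R' ρ → R ρ) : NoRel f q R' :=
  ⟨h.monic, h1, fun s hs ρ hρ => h.pair s hs ρ (hR ρ hρ)⟩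

theorem from_one (p : ℕ) (Ω : Finset ℂ) : From p Ω 1 :=
  ⟨one_ne_zero, 1, RingEquiv.refl ℂ, 1, 0, 0, Or.inl rfl, one_pos, by simp⟩

theorem powerIn_of_from {p : ℕ} {Ω : Finset ℂ} {M : Subfield ℂ}
    (hΩ : ∀ β ∈ Ω, ∀ τ : ℂ ≃+* ℂ, τ β ∈ M) {ρ : ℂ} (h : From p Ω ρ) : PowerIn M ρ := by
  obtain ⟨h0, β, τ, m, n, k, hβ, hm, he⟩ := h
  refine ⟨h0, m, hm, ?_⟩
  rw [he]
  refine M.mul_mem (zpow_mem ?_ n) (zpow_mem (natCast_mem M p) k)
  rcases hβ with rfl | hβ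
  · rw [map_one]
    exact M.one_mem
  · exact hΩ β hβ τ

end Pool.Agent.H856.PR
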