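import Pool.Agent.H856.PR.Conv

/-! # Products: the criterion for the absence of relations -/

set_option autoImplicit false

open Polynomial NumberField

namespace Pool.Agent.H856.PR

open Pool.Agent.H856.WD Pool.Agent.H856.WE Pool.Agent.Y1.CT

theorem dual_eq {p a : ℕ} [hp : Fact p.Prime] {E : Type} [Field E] [NumberField E]
    {I : Type} {P : I → E[X]} {Γ : (I × (E →+* ℂ)) × Fin 2 → ℂ} (h : IsFamily p a P Γ)
    {x y : (I × (E →+* ℂ)) × Fin 2} (hd : Dual ((p : ℂ) ^ a) Γ x y) : Γ x * Γ y = (p : ℂ) ^ a := by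
  obtain ⟨m, hm, hd⟩ := hd
  obtain ⟨z, hz⟩ := exists_conj h x
  have h2 : Γ y = Γ z := by
    apply h.reduced
    refine ⟨m, hm, ?_⟩
    rw [hz, div_pow, eq_div_iff (pow_ne_zero _ (ne_zero_of_family h _)), ← mul_pow, mul_comm]
    exact hd
  rw [h2, hz, mul_div_cancel₀ _ (ne_zero_of_family h _)]

/-- **The criterion.** -/
theorem criterion {p a : ℕ} [hp : Fact p.Prime] {E : Type} [Field E] [NumberField E]
    {I : Type} [Fintype I] {P : I → E[X]} {Γ : (I × (E →+* ℂ)) × Fin 2 → ℂ} (h : IsFamily p a P Γ)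
    {M : Subfield ℂ} (hM : Avoids Γ M) : NoRelations ((p : ℂ) ^ a) Γ M ↔ SameSlopes p P := by
  classical
  have hgal := h.galois
  obtain ⟨c, hc⟩ := h.conj
  constructor
  · intro hN i1 i2 σ hsq
    by_contra hne
    obtain ⟨x, y, u, v, hu, ⟨m, hm, hrel⟩, hxx, hxy, -⟩ := crit_data sq p a h.pos E c hc
      h.onePlace I P h.monic h.degree h.integral Γ h.roots h.weil i1 i2 σ (h.notSS i1)
      (h.notSS i2) hsq hne
    have hyy : ¬ Γ y * Γ y = (p : ℂ) ^ a := by
      intro hy
      apply hxx
      refine ⟨u * m, Nat.mul_pos hu hm, ?_⟩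
      have h1 : (Γ y ^ v) ^ (2 * m) = ((p : ℂ) ^ a) ^ (v * m) := by
        rw [← hy, ← pow_two, ← pow_mul, ← pow_mul]
        congr 1
        ring
      have h2 : ((p : ℂ) ^ a) ^ (v * m) ≠ 0 :=
        pow_ne_zero _ (pow_ne_zero _ (by exact_mod_cast hp.out.ne_zero))
      rw [mul_pow, h1] at hrel
      apply mul_right_cancel₀ h2
      have h3 : (Γ x * Γ x) ^ (u * m) = (Γ x ^ u) ^ (2 * m) := by
        rw [← pow_two, ← pow_mul, ← pow_mul]
        congr 1
        ring
      rw [h3, hrel, ← pow_add]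
      congr 1
      ring
    obtain ⟨x', y', hle, hprod⟩ := hN (Multiset.replicate (2 * u) x + Multiset.replicate (2 * v) y)
      (by
        intro h0
        have h1 := congrArg Multiset.card h0
        simp at h1
        omega) ⟨m, hm, by
        have h1 : ((Multiset.replicate (2 * u) x + Multiset.replicate (2 * v) y).map Γ).prod ^ m =
            ((p : ℂ) ^ a) ^ ((u + v) * m) := by
          rw [Multiset.map_add, Multiset.prod_add, Multiset.map_replicate, Multiset.map_replicate,
            Multiset.prod_replicate, Multiset.prod_replicate, ← hrel]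
          ring
        rw [h1]
        exact M.pow_mem (M.pow_mem (natCast_mem M _) _) _⟩
    have hmem : ∀ z, z ∈ (Multiset.replicate (2 * u) x + Multiset.replicate (2 * v) y) →
        z = x ∨ z = y := by
      intro z hz
      rcases Multiset.mem_add.1 hz with h1 | h1
      · exact Or.inl (Multiset.eq_of_mem_replicate h1)
      · exact Or.inr (Multiset.eq_of_mem_replicate h1)
    have hx' := hmem x' (Multiset.mem_of_le hle (by simp))
    have hy' := hmem y' (Multiset.mem_of_le hle (by simp))
    rcases hx' with rfl | rfl <;> rcases hy' with rfl | rfl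
    · exact hxx ⟨1, one_pos, by rw [pow_one, pow_one, hprod]⟩
    · exact hxy ⟨1, one_pos, by rw [pow_one, pow_one, hprod]⟩
    · exact hxy ⟨1, one_pos, by rw [pow_one, pow_one, mul_comm, hprod]⟩
    · exact hyy hprod
  · intro hs w hw ⟨K, hK, hwK⟩
    obtain ⟨x0, hx0⟩ := Multiset.exists_mem_of_ne_zero hw
    obtain ⟨x1, hx1, hd⟩ := free sig sq p a h.pos E c hc h.onePlace I P h.monic h.degree
      h.integral Γ h.roots h.weil h.notSS hs M hM.field hM.root w K hK hwK x0 hx0
    exact ⟨x0, x1, hx1, dual_eq h hd⟩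

end Pool.Agent.H856.PR
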