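import Pool.Agent.H856.WE.Pla2Proof
import Pool.Agent.H856.KA.Val

/-! # Products: the relations between the Weil numbers, from one place above `p` -/

set_option autoImplicit false

open Polynomial

namespace Pool.Agent.H856.PR

open Pool.Agent.H856.WD Pool.Agent.H856.WE

/-- the automorphisms which fix `θ` -/
def Gs (θ : AlgebraicClosure ℚ) : Subgroup (RingAut (AlgebraicClosure ℚ)) where
  carrier := {g | g θ = θ}
  mul_mem' := by
    intro a b ha hb
    show a (b θ) = θ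
    rw [show b θ = θ from hb]
    exact ha
  one_mem' := rfl
  inv_mem' := by
    intro a ha
    show a.symm θ = θ
    rw [RingEquiv.symm_apply_eq]
    exact (show a θ = θ from ha).symm

lemma swap {u w : AlgebraicClosure ℚ} (g : AlgebraicClosure ℚ ≃+* AlgebraicClosure ℚ)
    (hs : g (u + w) = u + w) (hp : g (u * w) = u * w) :
    (g u = u ∧ g w = w) ∨ (g u = w ∧ g w = u) := by
  rw [map_add] at hs
  rw [map_mul] at hp
  have h1 : (g u - u) * (g u - w) = 0 := by
    linear_combination (g u) * hs - hp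
  rcases mul_eq_zero.1 h1 with h2 | h2
  · left
    have h3 : g u = u := sub_eq_zero.1 h2
    refine ⟨h3, ?_⟩
    rw [h3] at hs
    exact add_left_cancel hs
  · right
    have h3 : g u = w := sub_eq_zero.1 h2
    refine ⟨h3, ?_⟩
    rw [h3, add_comm] at hs
    exact add_right_cancel hs

open Classical in
/-- the sign character -/
noncomputable def sg (θ u w : AlgebraicClosure ℚ) (huw : u ≠ w)
    (h : ∀ g : AlgebraicClosure ℚ ≃+* AlgebraicClosure ℚ, g θ = θ →
      (g u = u ∧ g w = w) ∨ (g u = w ∧ g w = u)) : Gs θ →* ℚ where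
  toFun g := if (g : RingAut (AlgebraicClosure ℚ)) u = u then 1 else -1
  map_one' := if_pos rfl
  map_mul' := by
    intro a b
    have e : ((a * b : Gs θ) : RingAut (AlgebraicClosure ℚ)) u =
      (a : RingAut (AlgebraicClosure ℚ)) ((b : RingAut (AlgebraicClosure ℚ)) u) := rfl
    rw [e]
    rcases h _ b.2 with ⟨hb, hb'⟩ | ⟨hb, hb'⟩ <;> rcases h _ a.2 with ⟨ha, ha'⟩ | ⟨ha, ha'⟩
    · rw [hb, if_pos ha, if_pos rfl, mul_one]
    · rw [hb, ha, if_neg huw.symm, if_pos rfl, mul_one]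
    · rw [hb, ha', ha, if_neg huw.symm, if_pos rfl, one_mul]
    · rw [hb, ha', ha, if_pos rfl, if_neg huw.symm]
      norm_num

section

variable (p a : ℕ) [hp : Fact p.Prime] (ha : 0 < a) (θ : AlgebraicClosure ℚ)
  (hirr : Irreducible ((minpoly ℚ θ).map (algebraMap ℚ ℚ_[p]))) {Λ : Type}
  (γ γ' : Λ → AlgebraicClosure ℚ) (ord : Λ → Prop)
  (hadd : ∀ l (g : AlgebraicClosure ℚ ≃+* AlgebraicClosure ℚ), g θ = θ →
    g (γ l + γ' l) = γ l + γ' l)
  (hmul : ∀ l (g : AlgebraicClosure ℚ ≃+* AlgebraicClosure ℚ), g θ = θ →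
    g (γ l * γ' l) = γ l * γ' l)
  (hB : ∀ l, ∃ m : ℕ, 0 < m ∧ (γ l * γ' l) ^ m = ((p : AlgebraicClosure ℚ) ^ a) ^ m)
  (hi : ∀ l, IsIntegral ℤ (γ l)) (hi' : ∀ l, IsIntegral ℤ (γ' l))
  (habs : ∀ l (φ : AlgebraicClosure ℚ →+* ℂ), ‖φ (γ l)‖ ^ 2 = (p : ℝ) ^ a)
  (r : ℝ) (hr0 : 0 < r) (hr : ‖iota p (p : AlgebraicClosure ℚ)‖ ^ a < r ^ 2)
  (hord : ∀ l, ord l → ‖iota p (γ l + γ' l)‖ = r)
  (hss : ∀ l, ¬ ord l → ∃ m : ℕ, 0 < m ∧ γ l ^ (2 * m) = ((p : AlgebraicClosure ℚ) ^ a) ^ m)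

include hB in
lemma Bnorm (l : Λ) : ‖iota p (γ l)‖ * ‖iota p (γ' l)‖ = ‖iota p (p : AlgebraicClosure ℚ)‖ ^ a := by
  obtain ⟨m, hm, h⟩ := hB l
  rw [← norm_mul, ← map_mul, ← norm_pow, ← map_pow]
  apply (pow_left_inj₀ (norm_nonneg _) (norm_nonneg _) hm.ne').1
  rw [← norm_pow, ← norm_pow, ← map_pow, ← map_pow, h]

include hB in
lemma ne0 (l : Λ) : γ l ≠ 0 ∧ γ' l ≠ 0 := by
  obtain ⟨m, hm, h⟩ := hB l
  have hp0 : (p : AlgebraicClosure ℚ) ≠ 0 := by exact_mod_cast hp.out.ne_zero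
  have h1 : γ l * γ' l ≠ 0 := by
    intro h2
    rw [h2, zero_pow hm.ne'] at h
    exact pow_ne_zero _ (pow_ne_zero _ hp0) h.symm
  exact ⟨left_ne_zero_of_mul h1, right_ne_zero_of_mul h1⟩

include hB hr0 hr hord in
/-- exactly one of the roots has the absolute value `r` -/
lemma unit_or (l : Λ) (hl : ord l) :
    (‖iota p (γ l)‖ = r ∧ ‖iota p (γ' l)‖ * r = ‖iota p (p : AlgebraicClosure ℚ)‖ ^ a) ∨
    (‖iota p (γ l)‖ * r = ‖iota p (p : AlgebraicClosure ℚ)‖ ^ a ∧ ‖iota p (γ' l)‖ = r) := by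
  obtain ⟨vadd, vint, vp, vl, vz⟩ := KA.val p
  have h1 := Bnorm p a γ γ' hB l
  have hneg : ∀ x, ‖iota p (-x)‖ = ‖iota p x‖ := by
    intro x
    rw [map_neg, norm_neg]
  have h4 := vadd (γ l) (γ' l)
  rw [hord l hl] at h4
  rcases lt_trichotomy ‖iota p (γ l)‖ ‖iota p (γ' l)‖ with h2 | h2 | h2
  · right
    have h3 := vadd (γ l + γ' l) (-γ l)
    rw [hneg, hord l hl, show γ l + γ' l + -γ l = γ' l by ring] at h3
    have h5 : ‖iota p (γ' l)‖ ≤ r := by
      rcases le_max_iff.1 h3 with h6 | h6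
      · exact h6
      · exact absurd (lt_of_le_of_lt h6 h2) (lt_irrefl _)
    have h6 : r ≤ ‖iota p (γ' l)‖ := by
      rw [max_eq_right h2.le] at h4
      exact h4
    have h7 := le_antisymm h5 h6
    exact ⟨by rw [← h1, h7], h7⟩
  · exfalso
    rw [h2, max_self] at h4
    rw [h2] at h1
    nlinarith
  · left
    have h3 := vadd (γ l + γ' l) (-γ' l)
    rw [hneg, hord l hl, show γ l + γ' l + -γ' l = γ l by ring] at h3
    have h5 : ‖iota p (γ l)‖ ≤ r := by
      rcases le_max_iff.1 h3 with h6 | h6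
      · exact h6
      · exact absurd (lt_of_le_of_lt h6 h2) (lt_irrefl _)
    have h6 : r ≤ ‖iota p (γ l)‖ := by
      rw [max_eq_left h2.le] at h4
      exact h4
    have h7 := le_antisymm h5 h6
    exact ⟨h7, by rw [← h1, h7, mul_comm]⟩

include hirr hadd hmul hB hi habs hr0 hr in
/-- dual letters -/
lemma dual_of (l k : Λ) (h1 : ‖iota p (γ l)‖ = r)
    (h2 : ‖iota p (γ' k)‖ = r)
    (hchi : ∀ g : AlgebraicClosure ℚ ≃+* AlgebraicClosure ℚ, g θ = θ →
      (g (γ l) = γ l ↔ g (γ k) = γ k)) :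
    ∃ m : ℕ, 0 < m ∧ (γ l * γ k) ^ m = ((p : AlgebraicClosure ℚ) ^ a) ^ m := by
  obtain ⟨vadd, vint, vp, vl, vz⟩ := KA.val p
  have hp0 : (p : AlgebraicClosure ℚ) ≠ 0 := by exact_mod_cast hp.out.ne_zero
  set c : ℝ := ‖iota p (p : AlgebraicClosure ℚ)‖ ^ a with hc
  have hc0 : 0 < c := pow_pos (lt_of_le_of_ne (norm_nonneg _) (norm_ne p hp0).symm) a
  have hl' : r * ‖iota p (γ' l)‖ = c := by
    have := Bnorm p a γ γ' hB l
    rwa [h1] at this
  have hk' : ‖iota p (γ k)‖ * r = c := by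
    have := Bnorm p a γ γ' hB k
    rwa [h2] at this
  have hlk : ‖iota p (γ' l)‖ = ‖iota p (γ k)‖ := by
    apply mul_left_cancel₀ hr0.ne'
    rw [hl', ← hk', mul_comm]
  have hk0'' : ‖iota p (γ k)‖ ≠ 0 := by
    intro h
    rw [h, zero_mul] at hk'
    exact hc0.ne hk'
  obtain ⟨hl0, hl0'⟩ := ne0 p a γ γ' hB l
  obtain ⟨hk0, hk0'⟩ := ne0 p a γ γ' hB k
  have hlne : γ l ≠ γ' l := fun h => by
    rw [← h, h1] at hl'
    rw [← hl'] at hr
    exact absurd hr (by rw [pow_two]; exact lt_irrefl _)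
  have hkne : γ k ≠ γ' k := fun h => by
    rw [h, h2] at hk'
    rw [← hk'] at hr
    exact absurd hr (by rw [pow_two]; exact lt_irrefl _)
  set y : AlgebraicClosure ℚ := γ l / γ' k with hy
  have hy0 : y ≠ 0 := div_ne_zero hl0 hk0'
  have hval : ∀ g : AlgebraicClosure ℚ ≃+* AlgebraicClosure ℚ, g θ = θ → val p (g y) = 0 := by
    intro g hg
    have h3 : ‖iota p (g y)‖ = 1 := by
      rcases swap g (hadd l g hg) (hmul l g hg) with ⟨h4, -⟩ | ⟨h4, -⟩ <;>
        rcases swap g (hadd k g hg) (hmul k g hg) with ⟨h6, h7⟩ | ⟨h6, h7⟩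
      · rw [hy, map_div₀, h4, h7, map_div₀, norm_div, h1, h2, div_self hr0.ne']
      · exfalso
        exact hkne ((((hchi g hg).1 h4).symm.trans h6))
      · exfalso
        exact hlne ((((hchi g hg).2 h6).symm.trans h4))
      · rw [hy, map_div₀, h4, h7, map_div₀, norm_div, hlk, div_self hk0'']
    rw [val, h3, Real.log_one, neg_zero]
  have habs' : ∀ φ : AlgebraicClosure ℚ →+* ℂ, ‖φ (γ' k)‖ ^ 2 = (p : ℝ) ^ a := by
    intro φ
    obtain ⟨m, hm, h3⟩ := hB k
    have h4 := congrArg (fun z => ‖φ z‖) h3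
    simp only [map_pow, norm_pow, map_mul, norm_mul, map_natCast] at h4
    have h5 : ‖φ (γ k)‖ * ‖φ (γ' k)‖ = ‖(p : ℂ)‖ ^ a :=
      (pow_left_inj₀ (by positivity) (by positivity) hm.ne').1 h4
    rw [Complex.norm_natCast] at h5
    have h6 := habs k φ
    have h7 : (0 : ℝ) < (p : ℝ) ^ a := pow_pos (by exact_mod_cast hp.out.pos) a
    have h8 : ‖φ (γ k)‖ ^ 2 * ‖φ (γ' k)‖ ^ 2 = (p : ℝ) ^ a * (p : ℝ) ^ a := by
      rw [← mul_pow, h5]
      ring
    rw [h6] at h8
    exact mul_left_cancel₀ h7.ne' h8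
  have hphi : ∀ φ : AlgebraicClosure ℚ →+* ℂ, ‖φ y‖ = 1 := by
    intro φ
    have h4 : ‖φ y‖ ^ 2 = 1 := by
      rw [hy, map_div₀, norm_div, div_pow, habs l φ, habs' φ, div_self]
      exact pow_ne_zero _ (by exact_mod_cast hp.out.ne_zero)
    exact (pow_eq_one_iff_of_nonneg (norm_nonneg _) two_ne_zero).1 h4
  obtain ⟨mk, hmk, hBk⟩ := hB k
  have hint : IsIntegral ℤ ((p : AlgebraicClosure ℚ) ^ a * y) := by
    -- `p ^ a / (γ k * γ' k)` is a root of unity
    have h3 : (p : AlgebraicClosure ℚ) ^ a * y =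
        γ l * γ k * ((p : AlgebraicClosure ℚ) ^ a / (γ k * γ' k)) := by
      rw [hy]
      field_simp
    rw [h3]
    refine ((hi l).mul (hi k)).mul ?_
    refine IsIntegral.of_pow hmk ?_
    rw [div_pow, hBk, div_self]
    · exact isIntegral_one
    · exact pow_ne_zero _ (pow_ne_zero _ hp0)
  obtain ⟨m, hm, hym⟩ := kron y (integral p y a hint (Pla2.conj_norm2 p hirr y hy0 hval)) hphi
  refine ⟨m * mk, Nat.mul_pos hm hmk, ?_⟩
  have h3 : γ l * γ k = y * (γ k * γ' k) := by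
    rw [hy]
    field_simp
  rw [h3, mul_pow, pow_mul y, hym, one_pow, one_mul, mul_comm m mk, pow_mul, hBk, ← pow_mul]

include hirr hadd hmul hB hi habs hr0 hr hord hss in
theorem pr (w : Multiset Λ) (m : ℕ) (hm : 0 < m)
    (hw : (w.map γ).prod ^ (2 * m) = ((p : AlgebraicClosure ℚ) ^ a) ^ (m * w.card))
    (l0 : Λ) (hl0 : l0 ∈ w) (hl0o : ord l0) :
    ∃ l1, {l0, l1} ≤ w ∧ ∃ k : ℕ, 0 < k ∧ (γ l0 * γ l1) ^ k = ((p : AlgebraicClosure ℚ) ^ a) ^ k := by
  classical
  obtain ⟨vadd, vint, vp, vl, vz⟩ := KA.val p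
  have hp0 : (p : AlgebraicClosure ℚ) ≠ 0 := by exact_mod_cast hp.out.ne_zero
  set c : ℝ := ‖iota p (p : AlgebraicClosure ℚ)‖ ^ a with hc
  have hc0 : 0 < c := pow_pos (lt_of_le_of_ne (norm_nonneg _) (norm_ne p hp0).symm) a
  have hc' : ‖((p : ℕ) : PadicAlgCl p)‖ ^ a = c := by rw [hc, map_natCast]
  set ρ : ℝ := r ^ 2 / c with hρ
  have hρ1 : 1 < ρ := by rw [hρ, one_lt_div hc0]; exact hr
  have hρ0 : 0 < ρ := lt_trans one_pos hρ1
  have hρr : c * ρ = r ^ 2 := by rw [hρ]; field_simp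
  have hρi : ∀ x : ℝ, x * r = c → x ^ 2 = c * ρ⁻¹ := by
    intro x hx
    rw [hρ, inv_div]
    have : x = c / r := by rw [← hx]; field_simp
    rw [this]
    field_simp
  have hrne : ∀ x : ℝ, x * r = c → x ≠ r := by
    rintro x hx rfl
    rw [← hx, pow_two] at hr
    exact lt_irrefl _ hr
  have huo := fun l hl => unit_or p a γ γ' ord hB r hr0 hr hord l hl
  have hne : ∀ l, ord l → γ l ≠ γ' l := by
    intro l hl h
    rcases huo l hl with ⟨h1, h2⟩ | ⟨h1, h2⟩
    · rw [← h] at h2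
      exact hrne _ h2 h1
    · rw [h] at h1
      exact hrne _ h1 h2
  -- the signs
  let s : Λ → ℤ := fun l => if ‖iota p (γ l)‖ = r then 1 else -1
  let e : (AlgebraicClosure ℚ ≃+* AlgebraicClosure ℚ) → Λ → ℤ :=
    fun g l => if ord l then s l * (if g (γ l) = γ l then 1 else -1) else 0
  have hnorm : ∀ g : AlgebraicClosure ℚ ≃+* AlgebraicClosure ℚ, g θ = θ → ∀ l,
      ‖iota p (g (γ l))‖ ^ 2 = c * ρ ^ (e g l) := by
    intro g hg l
    by_cases hl : ord l
    · simp only [e, if_pos hl, s]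
      rcases huo l hl with ⟨h1, h2⟩ | ⟨h1, h2⟩ <;>
        rcases swap g (hadd l g hg) (hmul l g hg) with ⟨h3, -⟩ | ⟨h3, -⟩
      · rw [h3, if_pos h1, if_pos rfl, h1, mul_one, zpow_one, hρr]
      · rw [h3, if_pos h1, if_neg (hne l hl).symm, hρi _ h2, one_mul, zpow_neg, zpow_one]
      · rw [h3, if_neg (hrne _ h1), if_pos rfl, hρi _ h1, mul_one, zpow_neg, zpow_one]
      · rw [h3, if_neg (hrne _ h1), if_neg (hne l hl).symm, h2, ← hρr]
        norm_num
    · simp only [e, if_neg hl, zpow_zero, mul_one]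
      obtain ⟨k, hk, h1⟩ := hss l hl
      have h2 := congrArg (fun z => ‖iota p (g z)‖) h1
      simp only [map_pow, norm_pow, map_natCast] at h2
      rw [pow_mul, hc'] at h2
      exact (pow_left_inj₀ (by positivity) hc0.le hk.ne').1 h2
  have hsum : ∀ g : AlgebraicClosure ℚ ≃+* AlgebraicClosure ℚ, g θ = θ →
      (w.map (e g)).sum = 0 := by
    intro g hg
    have h1 := congrArg (fun z => ‖iota p (g z)‖) hw
    simp only [map_pow, norm_pow, map_natCast] at h1
    rw [pow_mul, mul_comm m, pow_mul, hc'] at h1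
    have h2 : ‖iota p (g (w.map γ).prod)‖ ^ 2 = c ^ w.card :=
      (pow_left_inj₀ (by positivity) (by positivity) hm.ne').1 h1
    have h3 : ∀ v : Multiset Λ, ‖iota p (g (v.map γ).prod)‖ ^ 2 =
        c ^ v.card * ρ ^ (v.map (e g)).sum := by
      intro v
      induction v using Multiset.induction_on with
      | empty => simp
      | cons l v ih =>
        rw [Multiset.map_cons, Multiset.prod_cons, map_mul, map_mul, norm_mul, mul_pow, ih,
          hnorm g hg l, Multiset.card_cons, Multiset.map_cons,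
          Multiset.sum_cons, zpow_add₀ hρ0.ne', pow_succ]
        ring
    rw [h3 w] at h2
    have h4 : ρ ^ (w.map (e g)).sum = 1 := by
      apply mul_left_cancel₀ (pow_ne_zero w.card hc0.ne')
      rw [h2, mul_one]
    exact (zpow_eq_one_iff_right₀ hρ0.le hρ1.ne').1 h4
  -- the characters
  let χ : Λ → (Gs θ →* ℚ) := fun l => if hl : ord l then
    sg θ (γ l) (γ' l) (hne l hl) (fun g hg => swap g (hadd l g hg) (hmul l g hg)) else 1
  have hχ : ∀ l, ord l → ∀ g : Gs θ, χ l g =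
      if (g : RingAut (AlgebraicClosure ℚ)) (γ l) = γ l then 1 else -1 := by
    intro l hl g
    simp only [χ, dif_pos hl]
    rfl
  have hli := linearIndependent_monoidHom (Gs θ) ℚ
  rw [linearIndependent_iff'] at hli
  let F : Finset Λ := w.toFinset.filter ord
  let S : Finset (Gs θ →* ℚ) := F.image χ
  let cc : (Gs θ →* ℚ) → ℚ := fun x => ∑ l ∈ F.filter (fun l => χ l = x), (w.count l : ℚ) * (s l : ℚ)
  have hzero : ∑ x ∈ S, cc x • (x : Gs θ → ℚ) = 0 := by
    funext g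
    simp only [Finset.sum_apply, Pi.smul_apply, smul_eq_mul, Pi.zero_apply]
    have h1 := hsum g.1 g.2
    rw [Finset.sum_multiset_map_count] at h1
    have h2 : ∑ x ∈ S, cc x * x g = ∑ l ∈ F, (w.count l : ℚ) * (s l : ℚ) * χ l g := by
      rw [← Finset.sum_fiberwise_of_maps_to (s := F) (t := S) (g := χ)
        (fun l hl => Finset.mem_image_of_mem _ hl)]
      refine Finset.sum_congr rfl fun x _ => ?_
      rw [Finset.sum_mul]
      refine Finset.sum_congr rfl fun l hl => ?_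
      rw [(Finset.mem_filter.1 hl).2]
    rw [h2]
    have h3 : ∑ l ∈ w.toFinset, w.count l • e g.1 l =
        ∑ l ∈ F, w.count l • (s l * (if g.1 (γ l) = γ l then 1 else -1)) := by
      rw [Finset.sum_filter]
      refine Finset.sum_congr rfl fun l _ => ?_
      by_cases hl : ord l
      · simp only [e, if_pos hl]
      · simp only [e, if_neg hl, smul_zero]
    rw [h3] at h1
    have h4 : ((∑ l ∈ F, w.count l • (s l * (if g.1 (γ l) = γ l then 1 else -1)) : ℤ) : ℚ) = 0 := by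
      rw [h1, Int.cast_zero]
    rw [← h4]
    push_cast
    refine Finset.sum_congr rfl fun l hl => ?_
    rw [hχ l (Finset.mem_filter.1 hl).2, nsmul_eq_mul, mul_assoc]
    push_cast
    rfl
  have hcc := hli S cc hzero (χ l0) (Finset.mem_image_of_mem _
    (Finset.mem_filter.2 ⟨Multiset.mem_toFinset.2 hl0, hl0o⟩))
  -- a letter of the other sign
  have hex : ∃ l1 ∈ w, ord l1 ∧ χ l1 = χ l0 ∧ s l1 = - s l0 := by
    by_contra hcon
    push Not at hcon
    have h1 : ∀ l ∈ F.filter (fun l => χ l = χ l0), (w.count l : ℚ) * (s l : ℚ) =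
        (w.count l : ℚ) * (s l0 : ℚ) := by
      intro l hl
      rw [Finset.mem_filter, Finset.mem_filter, Multiset.mem_toFinset] at hl
      have h2 := hcon l hl.1.1 hl.1.2 hl.2
      have h3 : s l = s l0 := by
        have h4 : ∀ l, s l = 1 ∨ s l = -1 := by
          intro l
          simp only [s]
          split_ifs
          · left; rfl
          · right; rfl
        rcases h4 l with h5 | h5 <;> rcases h4 l0 with h6 | h6 <;> rw [h5, h6] at h2 ⊢
        · exact absurd rfl h2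
        · exact absurd rfl h2
      rw [h3]
    simp only [cc] at hcc
    rw [Finset.sum_congr rfl h1, ← Finset.sum_mul] at hcc
    rcases mul_eq_zero.1 hcc with h2 | h2
    · have h3 : (0 : ℚ) < ∑ l ∈ F.filter (fun l => χ l = χ l0), (w.count l : ℚ) := by
        refine Finset.sum_pos' (fun l _ => Nat.cast_nonneg _) ⟨l0, ?_, ?_⟩
        · rw [Finset.mem_filter, Finset.mem_filter, Multiset.mem_toFinset]
          exact ⟨⟨hl0, hl0o⟩, rfl⟩
        · exact_mod_cast Multiset.count_pos.2 hl0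
      exact h3.ne' h2
    · simp only [s] at h2
      split_ifs at h2 <;> norm_num at h2
  obtain ⟨l1, hl1, hl1o, hchi, hsgn⟩ := hex
  have hne01 : l0 ≠ l1 := by
    rintro rfl
    simp only [s] at hsgn
    split_ifs at hsgn <;> norm_num at hsgn
  have hiff : ∀ g : AlgebraicClosure ℚ ≃+* AlgebraicClosure ℚ, g θ = θ →
      (g (γ l0) = γ l0 ↔ g (γ l1) = γ l1) := by
    intro g hg
    have h1 := DFunLike.congr_fun hchi (⟨g, hg⟩ : Gs θ)
    rw [hχ l1 hl1o, hχ l0 hl0o] at h1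
    have e1 : ((⟨g, hg⟩ : Gs θ) : RingAut (AlgebraicClosure ℚ)) = g := rfl
    rw [e1] at h1
    by_cases h2 : g (γ l0) = γ l0 <;> by_cases h3 : g (γ l1) = γ l1
    · exact ⟨fun _ => h3, fun _ => h2⟩
    · rw [if_neg h3, if_pos h2] at h1
      norm_num at h1
    · rw [if_pos h3, if_neg h2] at h1
      norm_num at h1
    · exact ⟨fun h => absurd h h2, fun h => absurd h h3⟩
  refine ⟨l1, ?_, ?_⟩
  · rw [Multiset.le_iff_count]
    intro x
    simp only [Multiset.insert_eq_cons, Multiset.count_cons, Multiset.count_singleton]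
    by_cases hx0 : x = l0
    · subst hx0
      rw [if_neg hne01, if_pos rfl]
      have := Multiset.count_pos.2 hl0
      omega
    · by_cases hx1 : x = l1
      · subst hx1
        rw [if_pos rfl, if_neg hx0]
        have := Multiset.count_pos.2 hl1
        omega
      · rw [if_neg hx1, if_neg hx0]
        exact Nat.zero_le _
  · rcases huo l0 hl0o with ⟨h1, h2⟩ | ⟨h1, h2⟩ <;> rcases huo l1 hl1o with ⟨h3, h4⟩ | ⟨h3, h4⟩
    · exfalso
      simp only [s, if_pos h1, if_pos h3] at hsgn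
      norm_num at hsgn
    · exact dual_of p a θ hirr γ γ' hadd hmul hB hi habs r hr0 hr l0 l1 h1 h4 hiff
    · obtain ⟨k, hk, h5⟩ := dual_of p a θ hirr γ γ' hadd hmul hB hi habs r hr0 hr l1 l0
        h3 h2 (fun g hg => (hiff g hg).symm)
      exact ⟨k, hk, by rw [mul_comm]; exact h5⟩
    · exfalso
      simp only [s, if_neg (hrne _ h1), if_neg (hrne _ h3)] at hsgn
      norm_num at hsgn

end

end Pool.Agent.H856.PR
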